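import Pool.Agent.H29.IC.WYL

/-!
# Interior gradient bound by radial means (helper29, MP_0ee698_an): module MVG
-/

open MeasureTheory Set Filter Topology Metric
open scoped ENNReal NNReal ContDiff RealInnerProductSpace

namespace Pool.Agent.H29.IC

open Pool.Agent.H94.IC

/-- integration by parts against a scalar function with compact support in the open set -/
theorem ibp_cpt2 {O : Set E} (hO : IsOpen O) {Z : E → E} (hZ : ContDiffOn ℝ ∞ Z O) {φ : E → ℝ}
    (hφ : ContDiff ℝ ∞ φ) (hc : HasCompactSupport φ) (hs : tsupport φ ⊆ O) :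
    ∫ x in O, (φ x * dv Z x + ⟪gr φ x, Z x⟫) = 0 := by
  set Y : E → E := O.indicator (fun x => φ x • Z x) with hY
  have hYout : ∀ x ∉ tsupport φ, Y =ᶠ[𝓝 x] 0 := by
    intro x hx
    have h2 : φ =ᶠ[𝓝 x] 0 := notMem_tsupport_iff_eventuallyEq.mp hx
    filter_upwards [h2] with y hy
    rw [hY]
    by_cases hyΩ : y ∈ O
    · rw [indicator_of_mem hyΩ, hy]; simp
    · rw [indicator_of_notMem hyΩ]; rfl
  have hYin : ∀ x ∈ O, Y =ᶠ[𝓝 x] (fun x => φ x • Z x) := by
    intro x hx
    filter_upwards [hO.mem_nhds hx] with y hy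
    rw [hY, indicator_of_mem hy]
  have hfat : ∀ x ∈ O, ContDiffAt ℝ ∞ Z x := fun x hx => hZ.contDiffAt (hO.mem_nhds hx)
  have hYsm : ContDiff ℝ ∞ Y := by
    rw [contDiff_iff_contDiffAt]
    intro x
    by_cases hx : x ∈ O
    · exact (hφ.contDiffAt.smul (hfat x hx)).congr_of_eventuallyEq (hYin x hx)
    · exact (contDiffAt_const (c := (0 : E))).congr_of_eventuallyEq
        (hYout x (fun h => hx (hs h)))
  have hYc : HasCompactSupport Y :=
    HasCompactSupport.intro (K := tsupport φ) hc (fun x hx => (hYout x hx).self_of_nhds)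
  have hint := integral_dv_eq_zero (hYsm.of_le (by norm_cast)) hYc
  have hpt : ∀ x ∈ O, φ x * dv Z x + ⟪gr φ x, Z x⟫ = dv Y x := by
    intro x hx
    have : dv Y x = dv (fun x => φ x • Z x) x := by
      unfold dv
      rw [(hYin x hx).fderiv_eq]
    rw [this, dv_smul (hφ.differentiable (by simp) x)
      ((hfat x hx).differentiableAt (by simp))]
  rw [setIntegral_congr_fun hO.measurableSet hpt,
    setIntegral_eq_integral_of_forall_compl_eq_zero, hint]
  intro x hx
  unfold dv
  rw [(hYout x (fun h => hx (hs h))).fderiv_eq]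
  simp

theorem pd_comm {f : E → ℝ} {x : E} (h : ContDiffAt ℝ 2 f x) (j k : Fin 3) :
    pd j (pd k f) x = pd k (pd j f) x := by
  have h1 : DifferentiableAt ℝ (fderiv ℝ f) x := by
    have : ContDiffAt ℝ 1 (fderiv ℝ f) x := h.fderiv_right (m := 1) (by norm_num)
    exact this.differentiableAt (by norm_num)
  have h2 : ∀ i l : Fin 3, pd i (pd l f) x = fderiv ℝ (fderiv ℝ f) x (ev i) (ev l) := by
    intro i l
    unfold pd
    have h4 : HasFDerivAt (fun y => fderiv ℝ f y (ev l))
        ((ContinuousLinearMap.apply ℝ ℝ (ev l)).comp (fderiv ℝ (fderiv ℝ f) x)) x :=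
      (ContinuousLinearMap.apply ℝ ℝ (ev l)).hasFDerivAt.comp x h1.hasFDerivAt
    rw [h4.fderiv]
    simp
  rw [h2, h2]
  exact (h.isSymmSndFDerivAt (by simp)) (ev j) (ev k)

theorem harm_pd {O : Set E} (hO : IsOpen O) {v : E → ℝ} (hv : Harm O v) (k : Fin 3) :
    Harm O (pd k v) := by
  have hat : ∀ x ∈ O, ContDiffAt ℝ ∞ v x := fun x hx => hv.1.contDiffAt (hO.mem_nhds hx)
  have hpd : ∀ j : Fin 3, ∀ x ∈ O, ContDiffAt ℝ ∞ (pd j v) x := fun j x hx =>
    contDiffAt_pd (n := ⊤) j (by simpa using hat x hx)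
  have hpd2 : ∀ i j : Fin 3, ∀ x ∈ O, ContDiffAt ℝ ∞ (pd i (pd j v)) x := fun i j x hx =>
    contDiffAt_pd (n := ⊤) i (by simpa using hpd j x hx)
  refine ⟨fun x hx => (hpd k x hx).contDiffWithinAt, fun x hx => ?_⟩
  have h1 : ∀ j : Fin 3, pd j (pd j (pd k v)) x = pd k (pd j (pd j v)) x := by
    intro j
    have h2 : pd j (pd k v) =ᶠ[𝓝 x] pd k (pd j v) := by
      filter_upwards [hO.mem_nhds hx] with y hy
      exact pd_comm ((hat y hy).of_le (by norm_cast)) j k
    rw [(pd_congr j h2).self_of_nhds]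
    exact pd_comm ((hpd j x hx).of_le (by norm_cast)) j k
  simp_rw [h1]
  have h3 : (fun y => ∑ j : Fin 3, pd j (pd j v) y) =ᶠ[𝓝 x] fun _ => 0 := by
    filter_upwards [hO.mem_nhds hx] with y hy
    exact hv.2 y hy
  have h4 := (pd_congr k h3).self_of_nhds
  have h5 : pd k (fun y => ∑ j : Fin 3, pd j (pd j v) y) x =
      ∑ j : Fin 3, pd k (pd j (pd j v)) x := by
    unfold pd
    have h6 : HasFDerivAt (fun y => ∑ j : Fin 3, pd j (pd j v) y)
        (∑ j : Fin 3, fderiv ℝ (pd j (pd j v)) x) x :=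
      HasFDerivAt.fun_sum (fun j _ => ((hpd2 j j x hx).differentiableAt (by simp)).hasFDerivAt)
    unfold pd at h6
    rw [h6.fderiv]
    simp
  rw [← h5, h4]
  unfold pd
  simp

/-- smooth harmonic functions are weakly harmonic -/
theorem wh_of_harm {O : Set E} (hO : IsOpen O) {f : E → ℝ} (hf : Harm O f) :
    WH (O.indicator f) O := by
  intro φ hφ hc hs
  have h0 : ∫ x, O.indicator f x * ∑ k : Fin 3, pd k (pd k φ) x =
      ∫ x in O, f x * dv (gr φ) x := by
    rw [← integral_indicator hO.measurableSet]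
    congr 1
    funext x
    rw [← dv_gr (hφ.contDiffAt.of_le (by norm_cast))]
    by_cases hx : x ∈ O
    · rw [indicator_of_mem hx, indicator_of_mem hx]
    · rw [indicator_of_notMem hx, indicator_of_notMem hx, zero_mul]
  rw [h0]
  have hX := contDiff_gr hφ
  have h1 := ibp_cpt hO hf.1 hX (cs_gr hc) (tsupport_gr.trans hs)
  have hat : ∀ x ∈ O, ContDiffAt ℝ ∞ f x := fun x hx => hf.1.contDiffAt (hO.mem_nhds hx)
  have hg : ContDiffOn ℝ ∞ (gr f) O := fun x hx =>
    (contDiffAt_gr (n := ⊤) (by simpa using hat x hx)).contDiffWithinAt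
  have h2 := ibp_cpt2 hO hg hφ hc hs
  have hXs : tsupport (gr φ) ⊆ O := tsupport_gr.trans hs
  have i1 : IntegrableOn (fun x => f x * dv (gr φ) x) O := by
    have hcont : ContinuousOn (fun x => f x * dv (gr φ) x) O :=
      hf.1.continuousOn.mul (continuous_dv (hX.of_le (by norm_cast))).continuousOn
    have h7 : IntegrableOn (fun x => f x * dv (gr φ) x) (tsupport (gr φ)) :=
      (hcont.mono hXs).integrableOn_compact (cs_gr hc)
    exact (h7.integrable_of_forall_notMem_eq_zero (fun x hx => by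
      rw [dv_eq_zero_of_notMem hx, mul_zero])).integrableOn
  have i2 : IntegrableOn (fun x => ⟪gr f x, gr φ x⟫) O := by
    have hcont : ContinuousOn (fun x => ⟪gr f x, gr φ x⟫) O :=
      hg.continuousOn.inner hX.continuous.continuousOn
    have h7 : IntegrableOn (fun x => ⟪gr f x, gr φ x⟫) (tsupport (gr φ)) :=
      (hcont.mono hXs).integrableOn_compact (cs_gr hc)
    exact (h7.integrable_of_forall_notMem_eq_zero (fun x hx => by
      rw [image_eq_zero_of_notMem_tsupport hx, inner_zero_right])).integrableOn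
  rw [integral_add i1 i2] at h1
  have h3 : ∫ x in O, (φ x * dv (gr f) x + ⟪gr φ x, gr f x⟫) = ∫ x in O, ⟪gr f x, gr φ x⟫ := by
    apply setIntegral_congr_fun hO.measurableSet
    intro x hx
    simp only
    rw [dv_gr ((hat x hx).of_le (by norm_cast)), hf.2 x hx, mul_zero, zero_add, real_inner_comm]
  rw [h3] at h2
  rw [h2, add_zero] at h1
  exact h1

theorem avg_tendsto {f : E → ℝ} {x : E} (h : ContinuousAt f x) :
    Tendsto (fun s : ℝ => ⨍ y in closedBall x s, ‖f y - f x‖) (𝓝[>] 0) (𝓝 0) := by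
  rw [Metric.tendsto_nhds]
  intro ε hε
  obtain ⟨δ, hδ, hδf⟩ := Metric.continuousAt_iff.mp h (ε / 2) (by positivity)
  filter_upwards [Ioo_mem_nhdsGT hδ] with s hs
  have hV0 : 0 < volume.real (closedBall x s) :=
    ENNReal.toReal_pos (measure_closedBall_pos volume x hs.1).ne' measure_closedBall_lt_top.ne
  have h1 : ‖∫ y in closedBall x s, ‖f y - f x‖‖ ≤ (ε / 2) * volume.real (closedBall x s) := by
    apply norm_setIntegral_le_of_norm_le_const measure_closedBall_lt_top
    intro y hy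
    rw [norm_norm]
    have := hδf (lt_of_le_of_lt (mem_closedBall.mp hy) hs.2)
    rw [dist_eq_norm] at this
    exact this.le
  rw [dist_zero_right, setAverage_eq, norm_smul, norm_inv, Real.norm_of_nonneg hV0.le]
  calc (volume.real (closedBall x s))⁻¹ * ‖∫ y in closedBall x s, ‖f y - f x‖‖
      ≤ (volume.real (closedBall x s))⁻¹ * ((ε / 2) * volume.real (closedBall x s)) :=
        mul_le_mul_of_nonneg_left h1 (by positivity)
    _ = ε / 2 := by field_simp
    _ < ε := by linarith

/-- interior bound for one harmonic function -/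
theorem harm_bound {f : E → ℝ} {x : E} {r : ℝ} (hr : 0 < r) (hf : Harm (ball x r) f)
    (hint : IntegrableOn (fun y => f y ^ 2) (ball x r)) :
    f x ^ 2 ≤ r⁻¹ ^ 3 * ∫ y in ball x r, f y ^ 2 := by
  set f1 : E → ℝ := (ball x r).indicator f with hf1
  have hmeas : AEStronglyMeasurable f (volume.restrict (ball x r)) :=
    hf.1.continuousOn.aestronglyMeasurable measurableSet_ball
  have h2 : MemLp f1 2 volume := by
    rw [hf1, memLp_indicator_iff_restrict measurableSet_ball]
    exact (memLp_two_iff_integrable_sq hmeas).mpr hint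
  have hL : LocallyIntegrable f1 := h2.locallyIntegrable (by norm_num)
  have hw : WH f1 (ball x r) := wh_of_harm isOpen_ball hf
  set S : ℝ := 9 / 10 * r with hS
  have hS0 : 0 < S := by positivity
  have hSr : closedBall x S ⊆ ball x r := closedBall_subset_ball (by rw [hS]; linarith)
  have hev : f1 =ᶠ[𝓝 x] f := by
    filter_upwards [ball_mem_nhds x hr] with y hy
    rw [hf1, indicator_of_mem hy]
  have hcont : ContinuousAt f1 x :=
    ((hf.1.continuousOn.continuousAt (ball_mem_nhds x hr)).congr hev.symm)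
  have hM := M_limit hL hw hS0 hSr (avg_tendsto hcont)
  have hfx : f1 x = f x := hev.self_of_nhds
  set a := f x with ha
  rw [hfx] at hM
  have hPh0 : ∀ z, 0 ≤ Ph S z := fun z => mul_nonneg (by positivity) (GG_nonneg _)
  have hPh1 : ∀ z, Ph S z ≤ S⁻¹ ^ 3 := fun z => by
    unfold Ph
    calc S⁻¹ ^ 3 * GG (S⁻¹ • z) ≤ S⁻¹ ^ 3 * 1 :=
          mul_le_mul_of_nonneg_left (GG_le_one _) (by positivity)
      _ = S⁻¹ ^ 3 := mul_one _
  have hsq : Integrable (fun y => f1 y ^ 2) :=
    (memLp_two_iff_integrable_sq h2.aestronglyMeasurable).mp h2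
  have hPc : Continuous (fun y => Ph S (x - y)) := (Ph_smooth S).continuous.comp (by fun_prop)
  have i1 : Integrable (fun y => f1 y ^ 2 * Ph S (x - y)) := by
    refine (hsq.mul_const (S⁻¹ ^ 3)).mono' (hsq.aestronglyMeasurable.mul
      hPc.aestronglyMeasurable) (ae_of_all _ (fun y => ?_))
    rw [norm_mul, Real.norm_of_nonneg (sq_nonneg _), Real.norm_of_nonneg (hPh0 _)]
    exact mul_le_mul_of_nonneg_left (hPh1 _) (sq_nonneg _)
  have i2 : Integrable (fun y => f1 y * Ph S (x - y)) :=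
    conv_int hL (Ph_smooth S).continuous (cs_Ph hS0) x
  have i3 : Integrable (fun y => Ph S (x - y)) := by
    have := conv_int (locallyIntegrable_const (1 : ℝ)) (Ph_smooth S).continuous (cs_Ph hS0) x
    simpa using this
  have h3 : 0 ≤ ∫ y, (f1 y - a) ^ 2 * Ph S (x - y) :=
    integral_nonneg (fun y => mul_nonneg (sq_nonneg _) (hPh0 _))
  have e1 : ∀ y, (f1 y - a) ^ 2 * Ph S (x - y) =
      (f1 y ^ 2 * Ph S (x - y) - 2 * a * (f1 y * Ph S (x - y))) + a ^ 2 * Ph S (x - y) := by
    intro y; ring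
  have i4 : Integrable (fun y => f1 y ^ 2 * Ph S (x - y) - 2 * a * (f1 y * Ph S (x - y))) :=
    i1.sub (i2.const_mul _)
  simp_rw [e1] at h3
  rw [integral_add i4 (i3.const_mul _), integral_sub i1 (i2.const_mul _), integral_const_mul,
    integral_const_mul, Ph_mass hS0] at h3
  have hM' : ∫ y, f1 y * Ph S (x - y) = c0 * a := hM
  rw [hM'] at h3
  have h4 : ∫ y, f1 y ^ 2 * Ph S (x - y) ≤ S⁻¹ ^ 3 * ∫ y, f1 y ^ 2 := by
    rw [← integral_const_mul]
    apply integral_mono i1 (hsq.const_mul _)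
    intro y
    simp only
    rw [mul_comm]
    exact mul_le_mul_of_nonneg_right (hPh1 _) (sq_nonneg _)
  have h5 : ∫ y, f1 y ^ 2 = ∫ y in ball x r, f y ^ 2 := by
    rw [← integral_indicator measurableSet_ball]
    congr 1
    funext y
    rw [hf1]
    by_cases hy : y ∈ ball x r
    · rw [indicator_of_mem hy, indicator_of_mem hy]
    · rw [indicator_of_notMem hy, indicator_of_notMem hy]; simp
  rw [h5] at h4
  set A := ∫ y in ball x r, f y ^ 2 with hA
  have hA0 : 0 ≤ A := integral_nonneg (fun y => sq_nonneg _)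
  have h6 : c0 * a ^ 2 ≤ S⁻¹ ^ 3 * A := by nlinarith
  have h7 : S⁻¹ ^ 3 * A = (10 / 9) ^ 3 * (r⁻¹ ^ 3 * A) := by
    rw [hS]
    field_simp
  have h8 : 0 ≤ r⁻¹ ^ 3 * A := by positivity
  have h9 := c0_ge
  nlinarith [sq_nonneg a]

theorem mvg : T_MVG := by
  intro O v x r hv hr hball hint
  have hvb : Harm (ball x r) v := ⟨hv.1.mono hball, fun y hy => hv.2 y (hball hy)⟩
  have hpd : ∀ k : Fin 3, Harm (ball x r) (pd k v) := fun k => harm_pd isOpen_ball hvb k
  have hn : ∀ y, ‖gr v y‖ ^ 2 = ∑ k : Fin 3, pd k v y ^ 2 := by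
    intro y
    rw [EuclideanSpace.real_norm_sq_eq]
    simp_rw [gr_apply]
  have hi : ∀ k : Fin 3, IntegrableOn (fun y => pd k v y ^ 2) (ball x r) := by
    intro k
    refine Integrable.mono' hint
      (((hpd k).1.continuousOn.pow 2).aestronglyMeasurable measurableSet_ball)
      (ae_of_all _ (fun y => ?_))
    rw [Real.norm_of_nonneg (sq_nonneg _), hn y]
    exact Finset.single_le_sum (f := fun k => pd k v y ^ 2) (fun j _ => sq_nonneg _)
      (Finset.mem_univ k)
  rw [hn x]
  simp_rw [hn]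
  rw [integral_finsetSum _ (fun k _ => hi k), Finset.mul_sum]
  exact Finset.sum_le_sum (fun k _ => harm_bound hr (hpd k) (hi k))

end Pool.Agent.H29.IC
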