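import Pool.Agent.H29.IC.HSM

/-!
# Caccioppoli inequality up to the boundary (helper29, MP_0ee698_an): module CAC
-/

open MeasureTheory Set Filter Topology Metric
open scoped ENNReal NNReal ContDiff RealInnerProductSpace

namespace Pool.Agent.H29.IC

open Pool.Agent.H94.IC

/-- a fixed smooth bump -/
theorem exists_bump : ∃ (b : E → ℝ) (C : ℝ), ContDiff ℝ ∞ b ∧ 0 ≤ C ∧ (∀ x, 0 ≤ b x) ∧
    (∀ x ∈ ball (0 : E) (1 / 4), b x = 1) ∧ (∀ x ∉ ball (0 : E) (1 / 2), b x = 0) ∧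
    ∀ x, ‖fderiv ℝ b x‖ ≤ C := by
  let f : ContDiffBump (0 : E) := ⟨1 / 4, 1 / 2, by norm_num, by norm_num⟩
  have hf : ContDiff ℝ ∞ f := f.contDiff
  have hc : HasCompactSupport f := f.hasCompactSupport
  obtain ⟨C, hC⟩ := (hc.fderiv (𝕜 := ℝ)).exists_bound_of_continuous
    (hf.continuous_fderiv (by simp))
  refine ⟨f, C, hf, (norm_nonneg _).trans (hC 0), fun x => f.nonneg, ?_, ?_, hC⟩
  · intro x hx
    exact f.one_of_mem_closedBall (ball_subset_closedBall hx)
  · intro x hx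
    by_contra hcon
    have : x ∈ Function.support f := hcon
    rw [f.support_eq] at this
    exact hx this

theorem cac : T_CAC := by
  obtain ⟨b, Cb, hb, hCb, hb0, hb1, hb2, hbd⟩ := exists_bump
  refine ⟨4 * Cb ^ 2 + 1, by positivity, ?_⟩
  intro Ω S σ ν v τ x0 ρ ho hΩ hσ hS hSΩ hZ hρ hdist
  unfold Cac
  -- the cutoff
  set L : E → E := fun x => ρ⁻¹ • (x - x0) with hL
  set χ : E → ℝ := fun x => b (L x) with hχdef
  have hLs : ContDiff ℝ ∞ L := (contDiff_id.sub contDiff_const).const_smul ρ⁻¹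
  have hχ : ContDiff ℝ ∞ χ := hb.comp hLs
  have hnL : ∀ x, ‖L x‖ = ρ⁻¹ * dist x x0 := by
    intro x
    rw [hL]
    simp only
    rw [norm_smul, Real.norm_of_nonneg (by positivity), dist_eq_norm]
  have hχ1 : ∀ x ∈ ball x0 (ρ / 4), χ x = 1 := by
    intro x hx
    apply hb1
    rw [mem_ball_zero_iff, hnL]
    rw [mem_ball] at hx
    rw [inv_mul_lt_iff₀ hρ]
    linarith
  have hχ0 : ∀ x ∉ ball x0 (ρ / 2), χ x = 0 := by
    intro x hx
    apply hb2
    rw [mem_ball_zero_iff, hnL, not_lt]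
    rw [mem_ball, not_lt] at hx
    rw [le_inv_mul_iff₀ hρ]
    linarith
  have hχg : ∀ x, ‖gr χ x‖ ≤ Cb / ρ := by
    intro x
    rw [norm_gr]
    have h1 : HasFDerivAt L (ρ⁻¹ • ContinuousLinearMap.id ℝ E) x := by
      have := ((hasFDerivAt_id (𝕜 := ℝ) x).sub_const x0).const_smul ρ⁻¹
      exact this
    have h2 : HasFDerivAt χ ((fderiv ℝ b (L x)).comp (ρ⁻¹ • ContinuousLinearMap.id ℝ E)) x :=
      (hb.differentiable (by simp) (L x)).hasFDerivAt.comp x h1
    rw [h2.fderiv]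
    calc ‖(fderiv ℝ b (L x)).comp (ρ⁻¹ • ContinuousLinearMap.id ℝ E)‖
        ≤ ‖fderiv ℝ b (L x)‖ * ‖ρ⁻¹ • ContinuousLinearMap.id ℝ E‖ :=
          ContinuousLinearMap.opNorm_comp_le _ _
      _ ≤ Cb * ρ⁻¹ := by
          apply mul_le_mul (hbd _) _ (norm_nonneg _) hCb
          rw [norm_smul, Real.norm_of_nonneg (by positivity)]
          have := ContinuousLinearMap.norm_id_le (𝕜 := ℝ) (E := E)
          calc ρ⁻¹ * ‖ContinuousLinearMap.id ℝ E‖ ≤ ρ⁻¹ * 1 := by gcongr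
            _ = ρ⁻¹ := mul_one _
      _ = Cb / ρ := by rw [div_eq_mul_inv]
  have hχ2 : ContDiff ℝ ∞ (fun x => χ x * χ x) := hχ.mul hχ
  have hgr2 : ∀ x, gr (fun y => χ y * χ y) x = (2 * χ x) • gr χ x := by
    intro x
    rw [gr_mul (hχ.differentiable (by simp) x) (hχ.differentiable (by simp) x), ← add_smul]
    congr 1
    ring
  have hHS := hs_mul ho hΩ hσ hZ.hs hχ2
  have hw := hZ.weak _ _ _ hHS ⟨{x | ρ / 2 < dist x x0},
    isOpen_lt continuous_const (continuous_id.dist continuous_const), fun x hx => by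
      have := hdist x hx
      simp only [mem_ofPred_eq]
      linarith, fun x hx => by
      have hx' : x ∉ ball x0 (ρ / 2) := by
        rw [mem_ball, not_lt]
        exact le_of_lt hx
      rw [hgr2, hχ0 x hx']
      simp⟩
  have := finite_restrict hΩ
  -- integrability
  have hg2 : Integrable (fun x => ‖gr v x‖ ^ 2) (volume.restrict Ω) := hZ.hs.F2.integrable_norm_pow
    (by norm_num)
  have hv2 : Integrable (fun x => v x ^ 2) (volume.restrict Ω) := by
    have := hZ.hs.u2.integrable_norm_pow (by norm_num)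
    refine this.congr (ae_of_all _ (fun x => ?_))
    simp
  have hI : Integrable (fun x => ⟪gr v x, (χ x * χ x) • gr v x + v x • gr (fun y => χ y * χ y) x⟫)
      (volume.restrict Ω) := by
    have h1 : Integrable (fun x => ‖gr v x‖ ^ 2 +
      ‖(χ x * χ x) • gr v x + v x • gr (fun y => χ y * χ y) x‖ ^ 2) (volume.restrict Ω) :=
      hg2.add (hHS.F2.integrable_norm_pow (by norm_num))
    refine h1.mono' (hZ.hs.F2.aestronglyMeasurable.inner hHS.F2.aestronglyMeasurable)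
      (ae_of_all _ (fun x => ?_))
    have h2 := norm_inner_le_norm (𝕜 := ℝ) (gr v x)
      ((χ x * χ x) • gr v x + v x • gr (fun y => χ y * χ y) x)
    nlinarith [sq_nonneg (‖gr v x‖ -
      ‖(χ x * χ x) • gr v x + v x • gr (fun y => χ y * χ y) x‖), norm_nonneg (gr v x),
      norm_nonneg ((χ x * χ x) • gr v x + v x • gr (fun y => χ y * χ y) x)]
  have hpt : ∀ x, (ball x0 (ρ / 4)).indicator (fun x => ‖gr v x‖ ^ 2) x ≤
      2 * ⟪gr v x, (χ x * χ x) • gr v x + v x • gr (fun y => χ y * χ y) x⟫ +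
        4 * (Cb / ρ) ^ 2 * (ball x0 (ρ / 2)).indicator (fun x => v x ^ 2) x := by
    intro x
    have h1 : ⟪gr v x, (χ x * χ x) • gr v x + v x • gr (fun y => χ y * χ y) x⟫ =
        (χ x * ‖gr v x‖) ^ 2 + 2 * χ x * v x * ⟪gr v x, gr χ x⟫ := by
      rw [hgr2, inner_add_right, real_inner_smul_right, real_inner_smul_right,
        real_inner_smul_right, real_inner_self_eq_norm_sq]
      ring
    rw [h1]
    have hind : (ball x0 (ρ / 4)).indicator (fun x => ‖gr v x‖ ^ 2) x ≤ (χ x * ‖gr v x‖) ^ 2 := by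
      by_cases hx : x ∈ ball x0 (ρ / 4)
      · rw [indicator_of_mem hx, hχ1 x hx, one_mul]
      · rw [indicator_of_notMem hx]; positivity
    refine hind.trans ?_
    by_cases hx : x ∈ ball x0 (ρ / 2)
    · rw [indicator_of_mem hx]
      have h2 : |⟪gr v x, gr χ x⟫| ≤ ‖gr v x‖ * (Cb / ρ) :=
        (abs_real_inner_le_norm _ _).trans (mul_le_mul_of_nonneg_left (hχg x) (norm_nonneg _))
      have h3 : |χ x * v x * ⟪gr v x, gr χ x⟫| ≤ (χ x * ‖gr v x‖) * (|v x| * (Cb / ρ)) := by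
        rw [abs_mul, abs_mul, abs_of_nonneg (hb0 (L x))]
        calc χ x * |v x| * |⟪gr v x, gr χ x⟫| ≤ χ x * |v x| * (‖gr v x‖ * (Cb / ρ)) := by
              apply mul_le_mul_of_nonneg_left h2
              exact mul_nonneg (hb0 (L x)) (abs_nonneg _)
          _ = _ := by ring
      have h4 := neg_abs_le (χ x * v x * ⟪gr v x, gr χ x⟫)
      have h5 : (|v x| * (Cb / ρ)) ^ 2 = (Cb / ρ) ^ 2 * v x ^ 2 := by
        rw [mul_pow, sq_abs]; ring
      nlinarith [sq_nonneg (χ x * ‖gr v x‖ - 2 * (|v x| * (Cb / ρ)))]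
    · rw [indicator_of_notMem hx, hχ0 x hx]
      simp
  have h1 : ∫ x in Ω, (ball x0 (ρ / 4)).indicator (fun x => ‖gr v x‖ ^ 2) x ≤
      ∫ x in Ω, (2 * ⟪gr v x, (χ x * χ x) • gr v x + v x • gr (fun y => χ y * χ y) x⟫ +
        4 * (Cb / ρ) ^ 2 * (ball x0 (ρ / 2)).indicator (fun x => v x ^ 2) x) := by
    apply integral_mono (hg2.indicator measurableSet_ball) _ hpt
    exact (hI.const_mul 2).add ((hv2.indicator measurableSet_ball).const_mul _)
  rw [integral_add (hI.const_mul 2) ((hv2.indicator measurableSet_ball).const_mul _),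
    integral_const_mul, integral_const_mul, hw, setIntegral_indicator measurableSet_ball,
    setIntegral_indicator measurableSet_ball] at h1
  have h2 : 0 ≤ ∫ x in Ω ∩ ball x0 (ρ / 2), v x ^ 2 := integral_nonneg (fun x => sq_nonneg _)
  calc ∫ x in Ω ∩ ball x0 (ρ / 4), ‖gr v x‖ ^ 2
      ≤ 2 * 0 + 4 * (Cb / ρ) ^ 2 * ∫ x in Ω ∩ ball x0 (ρ / 2), v x ^ 2 := h1
    _ = (4 * Cb ^ 2) / ρ ^ 2 * ∫ x in Ω ∩ ball x0 (ρ / 2), v x ^ 2 := by ring
    _ ≤ (4 * Cb ^ 2 + 1) / ρ ^ 2 * ∫ x in Ω ∩ ball x0 (ρ / 2), v x ^ 2 := by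
        apply mul_le_mul_of_nonneg_right _ h2
        apply div_le_div_of_nonneg_right _ (by positivity)
        linarith

end Pool.Agent.H29.IC
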