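import Pool.Agent.H29.IC.HSM

/-!
# Harmonic representatives and unique continuation (helper29, MP_0ee698_an): modules HRP, UCX
-/

open MeasureTheory Set Filter Topology Metric
open scoped ENNReal NNReal ContDiff RealInnerProductSpace

namespace Pool.Agent.H29.IC

open Pool.Agent.H94.IC

/-- integration by parts against a field with compact support in the open set -/
theorem ibp_cpt {O : Set E} (hO : IsOpen O) {f : E → ℝ} (hf : ContDiffOn ℝ ∞ f O) {X : E → E}
    (hX : ContDiff ℝ ∞ X) (hc : HasCompactSupport X) (hs : tsupport X ⊆ O) :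
    ∫ x in O, (f x * dv X x + ⟪gr f x, X x⟫) = 0 := by
  set Y : E → E := O.indicator (fun x => f x • X x) with hY
  have hYout : ∀ x ∉ tsupport X, Y =ᶠ[𝓝 x] 0 := by
    intro x hx
    have h2 : X =ᶠ[𝓝 x] 0 := notMem_tsupport_iff_eventuallyEq.mp hx
    filter_upwards [h2] with y hy
    rw [hY]
    by_cases hyΩ : y ∈ O
    · rw [indicator_of_mem hyΩ, hy]; simp
    · rw [indicator_of_notMem hyΩ]; rfl
  have hYin : ∀ x ∈ O, Y =ᶠ[𝓝 x] (fun x => f x • X x) := by
    intro x hx
    filter_upwards [hO.mem_nhds hx] with y hy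
    rw [hY, indicator_of_mem hy]
  have hfat : ∀ x ∈ O, ContDiffAt ℝ ∞ f x := fun x hx => hf.contDiffAt (hO.mem_nhds hx)
  have hYsm : ContDiff ℝ ∞ Y := by
    rw [contDiff_iff_contDiffAt]
    intro x
    by_cases hx : x ∈ O
    · exact ((hfat x hx).smul hX.contDiffAt).congr_of_eventuallyEq (hYin x hx)
    · exact (contDiffAt_const (c := (0 : E))).congr_of_eventuallyEq
        (hYout x (fun h => hx (hs h)))
  have hYc : HasCompactSupport Y :=
    HasCompactSupport.intro (K := tsupport X) hc (fun x hx => (hYout x hx).self_of_nhds)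
  have hint := integral_dv_eq_zero (hYsm.of_le (by norm_cast)) hYc
  have hpt : ∀ x ∈ O, f x * dv X x + ⟪gr f x, X x⟫ = dv Y x := by
    intro x hx
    have : dv Y x = dv (fun x => f x • X x) x := by
      unfold dv
      rw [(hYin x hx).fderiv_eq]
    rw [this, dv_smul ((hfat x hx).differentiableAt (by simp))
      (hX.differentiable (by simp) x)]
  rw [setIntegral_congr_fun hO.measurableSet hpt,
    setIntegral_eq_integral_of_forall_compl_eq_zero, hint]
  intro x hx
  unfold dv
  rw [(hYout x (fun h => hx (hs h))).fderiv_eq]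
  simp

theorem restrict_diff_null {Ω S : Set E} (h : volume S = 0) :
    (volume : Measure E).restrict (Ω \ S) = volume.restrict Ω := by
  apply Measure.restrict_congr_set
  exact sdiff_null_ae_eq_self h

theorem hs_congr {Ω S : Set E} {σ : Measure E} {ν : E → E} {u F τ u' F'}
    (h : HS1 Ω S σ ν u F τ) (hu : u =ᵐ[volume.restrict Ω] u')
    (hF : F =ᵐ[volume.restrict Ω] F') : HS1 Ω S σ ν u' F' τ := by
  refine ⟨(memLp_congr_ae hu).mp h.u2, (memLp_congr_ae hF).mp h.F2, h.t2, ?_⟩
  intro X hX hc hd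
  rw [← h.tr X hX hc hd]
  apply integral_congr_ae
  filter_upwards [hu, hF] with x h1 h2
  rw [h1, h2]

theorem sol_congr {Ω S : Set E} {σ : Measure E} {ν : E → E} {ψ u F τ u' F'}
    (h : Sol Ω S σ ν ψ u F τ) (hu : u =ᵐ[volume.restrict Ω] u')
    (hF : F =ᵐ[volume.restrict Ω] F') : Sol Ω S σ ν ψ u' F' τ := by
  refine ⟨hs_congr h.h hu hF, ?_⟩
  intro φ G κ hφ
  rw [← h.weak φ G κ hφ]
  apply integral_congr_ae
  filter_upwards [hF] with x h2
  rw [h2]

theorem tsupport_gr {φ : E → ℝ} : tsupport (gr φ) ⊆ tsupport φ := by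
  refine Subset.trans (closure_mono ?_) (tsupport_fderiv_subset ℝ (f := φ))
  intro x hx
  rw [Function.mem_support] at hx ⊢
  intro h
  apply hx
  rw [← norm_eq_zero, norm_gr, h, norm_zero]

theorem cs_gr {φ : E → ℝ} (h : HasCompactSupport φ) : HasCompactSupport (gr φ) :=
  h.of_isClosed_subset (isClosed_tsupport _) tsupport_gr

/-- the equation of a weak solution tested with a function supported off the crack and the
boundary -/
theorem weak_lap {Ω S : Set E} {σ : Measure E} {ν : E → E} {ψ u : E → ℝ} {F : E → E} {τ : E → ℝ}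
    (ho : IsOpen Ω) (hΩ : Bornology.IsBounded Ω) (hσ : IsSurf Ω σ ν) (hS : IsCompact S)
    (hsol : Sol Ω S σ ν ψ u F τ) {φ : E → ℝ} (hφ : ContDiff ℝ ∞ φ) (hc : HasCompactSupport φ)
    (hs : tsupport φ ⊆ Ω \ S) : ∫ x in Ω, u x * ∑ k : Fin 3, pd k (pd k φ) x = 0 := by
  have hX := contDiff_gr hφ
  have hXc := cs_gr hc
  have hXs : tsupport (gr φ) ⊆ Ω \ S := tsupport_gr.trans hs
  have h1 := hsol.h.tr (gr φ) hX hXc
    (Set.disjoint_left.mpr (fun x hx hxS => (hXs hx).2 hxS))
  have h2 : ∫ x, τ x * ⟪gr φ x, ν x⟫ ∂σ = 0 := by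
    rw [← integral_zero E ℝ (μ := σ)]
    apply integral_congr_ae
    filter_upwards [ae_frontier hσ] with x hx
    have : x ∉ tsupport (gr φ) := fun h => by
      have h3 := (hXs h).1
      rw [ho.frontier_eq] at hx
      exact hx.2 h3
    rw [image_eq_zero_of_notMem_tsupport this]
    simp
  have h3 : ∫ x in Ω, ⟪F x, gr φ x⟫ = 0 := by
    have h4 := hs_cpt (σ := σ) (ν := ν) ho hS (φ := φ) (K := tsupport φ) hφ.contDiffOn
      (memLp_cont_restrict ho.measurableSet hΩ hφ.continuous)
      (memLp_cont_restrict ho.measurableSet hΩ hX.continuous) hc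
      (hs.trans sdiff_subset) (fun x hx => image_eq_zero_of_notMem_tsupport hx.2)
    rw [hsol.weak φ (gr φ) _ h4]
    simp
  have hX1 : ContDiff ℝ 1 (gr φ) := hX.of_le (by norm_cast)
  have e1 : ∀ x, u x * ∑ k : Fin 3, pd k (pd k φ) x =
      (u x * dv (gr φ) x + ⟪F x, gr φ x⟫) - ⟪F x, gr φ x⟫ := by
    intro x
    rw [dv_gr (hφ.contDiffAt.of_le (by norm_cast))]
    ring
  have hi1 := int_left hΩ hsol.h.u2 hsol.h.F2 hX1 hXc
  have hi2 : Integrable (fun x => ⟪F x, gr φ x⟫) (volume.restrict Ω) := by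
    have := int_left (u := fun _ => (0 : ℝ)) hΩ MemLp.zero hsol.h.F2 hX1 hXc
    simpa using this
  simp_rw [e1]
  rw [integral_sub hi1 hi2, h1, h2, h3, sub_zero]

theorem locInt {O : Set E} {Ω : Set E} (hΩ : Bornology.IsBounded Ω) (hOΩ : O ⊆ Ω) {F : E → E}
    (hF : MemLp F 2 (volume.restrict Ω)) (k : Fin 3) :
    LocallyIntegrableOn (fun x => F x k) O := by
  have := finite_restrict hΩ
  have h1 : IntegrableOn F Ω := int_of_L2 hF
  have h2 : IntegrableOn (fun x => F x k) Ω :=
    (EuclideanSpace.proj k : E →L[ℝ] ℝ).integrable_comp h1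
  exact (h2.mono_set hOΩ).locallyIntegrableOn

/-- the weak gradient of a smooth function -/
theorem grad_unique {Ω O S : Set E} {σ : Measure E} {ν : E → E} {u h : E → ℝ} {F : E → E}
    {τ : E → ℝ} (ho : IsOpen Ω) (hΩ : Bornology.IsBounded Ω) (hσ : IsSurf Ω σ ν) (hO : IsOpen O)
    (hOΩ : O ⊆ Ω \ S) (hu : HS1 Ω S σ ν u F τ) (hh : ContDiffOn ℝ ∞ h O)
    (huh : ∀ᵐ x, x ∈ O → u x = h x) :
    ∀ᵐ x, x ∈ O → F x = gr h x := by
  have hcomp : ∀ k : Fin 3, ∀ᵐ x, x ∈ O → F x k - (gr h x) k = 0 := by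
    intro k
    have hL : LocallyIntegrableOn (fun x => F x k - (gr h x) k) O := by
      apply (locInt hΩ (hOΩ.trans sdiff_subset) hu.F2 k).sub
      have h1 : ContinuousOn (fun x => (gr h x) k) O := by
        intro x hx
        have h2 : ContDiffAt ℝ (0 : ℕ∞) (gr h) x := contDiffAt_gr
          ((hh.contDiffAt (hO.mem_nhds hx)).of_le (by norm_cast))
        exact ((PiLp.continuous_apply 2 (fun _ : Fin 3 => ℝ) k).continuousAt.comp
          h2.continuousAt).continuousWithinAt
      exact h1.locallyIntegrableOn hO.measurableSet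
    refine hO.ae_eq_zero_of_integral_contDiff_smul_eq_zero hL ?_
    intro g hg hgc hgs
    set X : E → E := fun x => g x • ev k with hXdef
    have hX : ContDiff ℝ ∞ X := hg.smul contDiff_const
    have hX1 : ContDiff ℝ 1 X := hX.of_le (by norm_cast)
    have hXc : HasCompactSupport X := hgc.smul_right
    have hXs : tsupport X ⊆ O := (closure_mono (Function.support_smul_subset_left _ _)).trans hgs
    have h1 := hu.tr X hX hXc (Set.disjoint_left.mpr (fun x hx hxS => (hOΩ (hXs hx)).2 hxS))
    have h2 : ∫ x, τ x * ⟪X x, ν x⟫ ∂σ = 0 := by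
      rw [← integral_zero E ℝ (μ := σ)]
      apply integral_congr_ae
      filter_upwards [ae_frontier hσ] with x hx
      have : x ∉ tsupport X := fun h => by
        have h3 := (hOΩ (hXs h)).1
        rw [ho.frontier_eq] at hx
        exact hx.2 h3
      rw [image_eq_zero_of_notMem_tsupport this]
      simp
    rw [h2] at h1
    have h3 := ibp_cpt hO hh hX hXc hXs
    -- restrict h1 to O
    have h4 : ∫ x in O, (u x * dv X x + ⟪F x, X x⟫) = 0 := by
      rw [← h1]
      symm
      apply setIntegral_eq_of_subset_of_forall_sdiff_eq_zero ho.measurableSet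
        (hOΩ.trans sdiff_subset)
      intro x hx
      have hx' : x ∉ tsupport X := fun h => hx.2 (hXs h)
      rw [dv_eq_zero_of_notMem hx', image_eq_zero_of_notMem_tsupport hx']
      simp
    have h5 : ∫ x in O, (h x * dv X x + ⟪F x, X x⟫) = 0 := by
      rw [← h4]
      apply setIntegral_congr_ae hO.measurableSet
      filter_upwards [huh] with x hx hxO
      rw [hx hxO]
    have hi0 : IntegrableOn (fun x => u x * dv X x + ⟪F x, X x⟫) Ω :=
      int_left hΩ hu.u2 hu.F2 hX1 hXc
    have hi1 : IntegrableOn (fun x => u x * dv X x + ⟪F x, X x⟫) O :=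
      hi0.mono_set (hOΩ.trans sdiff_subset)
    have hi2 : IntegrableOn (fun x => h x * dv X x + ⟪F x, X x⟫) O := by
      refine hi1.congr_fun_ae ?_
      filter_upwards [ae_restrict_of_ae huh, ae_restrict_mem hO.measurableSet] with x hx hxO
      rw [hx hxO]
    have hi3 : IntegrableOn (fun x => h x * dv X x + ⟪gr h x, X x⟫) O := by
      have hcont : ContinuousOn (fun x => h x * dv X x + ⟪gr h x, X x⟫) O := by
        refine ContinuousOn.add ((hh.continuousOn).mul (continuous_dv hX1).continuousOn) ?_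
        refine ContinuousOn.inner ?_ hX.continuous.continuousOn
        intro x hx
        have h2 : ContDiffAt ℝ (0 : ℕ∞) (gr h) x := contDiffAt_gr
          ((hh.contDiffAt (hO.mem_nhds hx)).of_le (by norm_cast))
        exact h2.continuousAt.continuousWithinAt
      have h7 : IntegrableOn (fun x => h x * dv X x + ⟪gr h x, X x⟫) (tsupport X) :=
        (hcont.mono hXs).integrableOn_compact hXc
      have h8 := h7.integrable_of_forall_notMem_eq_zero (fun x hx => by
        rw [dv_eq_zero_of_notMem hx, image_eq_zero_of_notMem_tsupport hx]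
        simp)
      exact h8.integrableOn
    have h6 : ∫ x in O, (⟪F x, X x⟫ - ⟪gr h x, X x⟫) = 0 := by
      have : ∀ x, ⟪F x, X x⟫ - ⟪gr h x, X x⟫ =
        (h x * dv X x + ⟪F x, X x⟫) - (h x * dv X x + ⟪gr h x, X x⟫) := by intro x; ring
      simp_rw [this]
      rw [integral_sub hi2 hi3, h5, h3, sub_zero]
    have h9 : ∀ x, g x • (F x k - (gr h x) k) = ⟪F x, X x⟫ - ⟪gr h x, X x⟫ := by
      intro x
      rw [hXdef]
      simp only [real_inner_smul_right]
      rw [EuclideanSpace.inner_single_right, EuclideanSpace.inner_single_right]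
      simp
      ring
    simp_rw [h9]
    rw [← h6]
    symm
    apply setIntegral_eq_integral_of_forall_compl_eq_zero
    intro x hx
    rw [image_eq_zero_of_notMem_tsupport (fun h => hx (hXs h))]
    simp
  have hall := ae_all_iff.mpr hcomp
  filter_upwards [hall] with x hx hxO
  ext k
  exact sub_eq_zero.mp (hx k hxO)

theorem hrp (hW : T_WYL) : T_HRP := by
  intro Ω S σ ν ψ u F τ ho hΩ hσ hS hSΩ hS0 hsol
  have hO : IsOpen (Ω \ S) := ho.sdiff hS.isClosed
  have hr : (volume : Measure E).restrict (Ω \ S) = volume.restrict Ω := restrict_diff_null hS0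
  obtain ⟨h, hh, huh⟩ := hW (Ω \ S) u hO (by rw [hr]; exact hsol.h.u2) (by
    intro φ hφ hc hs
    rw [hr]
    exact weak_lap ho hΩ hσ hS hsol hφ hc hs)
  have h1 : ∀ᵐ x, x ∈ Ω \ S → u x = h x := (ae_restrict_iff' hO.measurableSet).mp huh
  have h2 := grad_unique ho hΩ hσ hO (Subset.refl _) hsol.h hh.1 h1
  rw [hr] at huh
  have h3 : F =ᵐ[volume.restrict Ω] gr h := by
    rw [← hr]
    exact (ae_restrict_iff' hO.measurableSet).mpr h2
  exact ⟨h, hh, huh, h3, sol_congr hsol huh h3⟩

end Pool.Agent.H29.IC
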