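import Pool.Agent.H29.IC.MVG

/-!
# Holomorphic extension of harmonic functions (helper29, MP_0ee698_an): module HRX
-/

open MeasureTheory Set Filter Topology Metric
open scoped ENNReal NNReal ContDiff RealInnerProductSpace

namespace Pool.Agent.H29.IC

open Pool.Agent.H94.IC

/-- integrals over compact sets of kernels holomorphic along lines -/
theorem gh_integral {U : Set C3} (hU : IsOpen U) {K : Set E} (hK : IsCompact K)
    (k : C3 → E → ℂ) (k' : C3 → C3 → E → ℂ)
    (hk : ContinuousOn (Function.uncurry k) (U ×ˢ K))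
    (hk' : ∀ v, ContinuousOn (Function.uncurry (k' v)) (U ×ˢ K))
    (hd : ∀ z ∈ U, ∀ v : C3, ∀ y ∈ K, HasDerivAt (fun t : ℂ => k (z + t • v) y) (k' v z y) 0) :
    GH U (fun z => ∫ y in K, k z y) := by
  have hKm : MeasurableSet K := hK.measurableSet
  have hKf : IsFiniteMeasure (volume.restrict K) :=
    ⟨by rw [Measure.restrict_apply_univ]; exact hK.measure_lt_top⟩
  have hsec : ∀ (F : C3 → E → ℂ), ContinuousOn (Function.uncurry F) (U ×ˢ K) → ∀ z ∈ U,
      ContinuousOn (F z) K := by
    intro F hF z hz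
    have : ContinuousOn (fun y : E => (z, y)) K := by fun_prop
    exact hF.comp this (fun y hy => ⟨hz, hy⟩)
  have hbd : ∀ (F : C3 → E → ℂ), ContinuousOn (Function.uncurry F) (U ×ˢ K) → ∀ z ∈ U,
      ∃ ε > 0, closedBall z ε ⊆ U ∧ ∃ C : ℝ, ∀ w ∈ closedBall z ε, ∀ y ∈ K, ‖F w y‖ ≤ C := by
    intro F hF z hz
    obtain ⟨ε, hε, hsub⟩ := Metric.nhds_basis_closedBall.mem_iff.mp (hU.mem_nhds hz)
    obtain ⟨C, hC⟩ := ((isCompact_closedBall z ε).prod hK).exists_bound_of_continuousOn
      (hF.mono (prod_mono hsub (Subset.refl _)))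
    exact ⟨ε, hε, hsub, C, fun w hw y hy => hC (w, y) ⟨hw, hy⟩⟩
  refine ⟨?_, ?_⟩
  · intro z hz
    apply ContinuousAt.continuousWithinAt
    obtain ⟨ε, hε, hsub, C, hC⟩ := hbd k hk z hz
    have hnh : closedBall z ε ∈ 𝓝 z := closedBall_mem_nhds z hε
    refine continuousAt_of_dominated (bound := fun _ => C) ?_ ?_ (integrable_const C) ?_
    · filter_upwards [hnh] with w hw
      exact (hsec k hk w (hsub hw)).aestronglyMeasurable hKm
    · filter_upwards [hnh] with w hw
      filter_upwards [ae_restrict_mem hKm] with y hy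
      exact hC w hw y hy
    · filter_upwards [ae_restrict_mem hKm] with y hy
      have h1 : ContinuousOn (fun w : C3 => k w y) U := by
        have : ContinuousOn (fun w : C3 => (w, y)) U := by fun_prop
        exact hk.comp this (fun w hw => ⟨hw, hy⟩)
      exact h1.continuousAt (hU.mem_nhds hz)
  · intro z hz v
    obtain ⟨ε, hε, hsub, C, hC⟩ := hbd (k' v) (hk' v) z hz
    set δ : ℝ := ε / (‖v‖ + 1) with hδ
    have hv1 : 0 < ‖v‖ + 1 := by positivity
    have hδ0 : 0 < δ := by positivity
    have hin : ∀ t ∈ ball (0 : ℂ) δ, z + t • v ∈ closedBall z ε := by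
      intro t ht
      rw [mem_ball_zero_iff] at ht
      rw [mem_closedBall, dist_eq_norm]
      have : z + t • v - z = t • v := by abel
      rw [this, norm_smul]
      calc ‖t‖ * ‖v‖ ≤ δ * (‖v‖ + 1) := by
            apply mul_le_mul ht.le (by linarith) (norm_nonneg _) hδ0.le
        _ = ε := by rw [hδ]; field_simp
    have hcont0 : ∀ t ∈ ball (0 : ℂ) δ, z + t • v ∈ U := fun t ht => hsub (hin t ht)
    have h0 : (0 : ℂ) ∈ ball (0 : ℂ) δ := mem_ball_self hδ0
    have hz0 : z + (0 : ℂ) • v ∈ U := hcont0 0 h0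
    have := hasDerivAt_integral_of_dominated_loc_of_deriv_le (μ := volume.restrict K)
      (F := fun (t : ℂ) y => k (z + t • v) y) (F' := fun (t : ℂ) y => k' v (z + t • v) y)
      (x₀ := (0 : ℂ)) (bound := fun _ => C) (ball_mem_nhds 0 hδ0)
      (by
        filter_upwards [ball_mem_nhds (0 : ℂ) hδ0] with t ht
        exact (hsec k hk _ (hcont0 t ht)).aestronglyMeasurable hKm)
      ((hsec k hk _ hz0).integrableOn_compact hK)
      ((hsec (k' v) (hk' v) _ hz0).aestronglyMeasurable hKm)
      (by
        filter_upwards [ae_restrict_mem hKm] with y hy t ht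
        exact hC _ (hin t ht) y hy)
      (integrable_const C)
      (by
        filter_upwards [ae_restrict_mem hKm] with y hy t ht
        have h1 := hd (z + t • v) (hcont0 t ht) v y hy
        have h2 : HasDerivAt (fun s : ℂ => k (z + t • v + (s - t) • v) y)
            (k' v (z + t • v) y) t := by
          have h4 : HasDerivAt (fun u : ℂ => k (z + t • v + u • v) y)
              (k' v (z + t • v) y) (t - t) := by rw [sub_self]; exact h1
          exact h4.comp_sub_const t t
        refine h2.congr_of_eventuallyEq (Eventually.of_forall (fun s => ?_))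
        simp only
        congr 1
        rw [sub_smul]
        abel)
    exact this.2.differentiableAt

/-- the complex quadratic form -/
noncomputable def qq (z : C3) (y : E) : ℂ := ∑ k : Fin 3, (z k - (y k : ℂ)) ^ 2

theorem qq_re {p : E} {r : ℝ} (hr : 0 < r) {z : C3} (hz : z ∈ ball (cx p) (r / 16)) {y : E}
    (hy : r / 2 ≤ ‖y - p‖) : 0 < (qq z y).re := by
  rw [mem_ball, dist_pi_lt_iff (by positivity)] at hz
  have h1 : ∀ k : Fin 3, (y k - p k) ^ 2 / 2 - (r / 16) ^ 2 ≤
      ((z k - (y k : ℂ)) ^ 2).re := by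
    intro k
    have h2 := hz k
    rw [Complex.dist_eq] at h2
    set w := z k - cx p k with hw
    have h3 : Complex.normSq w ≤ (r / 16) ^ 2 := by
      rw [Complex.normSq_eq_norm_sq]
      exact pow_le_pow_left₀ (norm_nonneg _) h2.le 2
    rw [Complex.normSq_apply] at h3
    have h4 : z k - (y k : ℂ) = w - ((y k - p k : ℝ) : ℂ) := by
      rw [hw]
      simp only [cx]
      push_cast
      ring
    rw [h4, pow_two (w - _), Complex.mul_re]
    simp only [Complex.sub_re, Complex.ofReal_re, Complex.sub_im, Complex.ofReal_im, sub_zero]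
    nlinarith [sq_nonneg ((y k - p k) / 2 - w.re), sq_nonneg (y k - p k - 2 * w.re)]
  have h2 : ‖y - p‖ ^ 2 = ∑ k : Fin 3, (y k - p k) ^ 2 := by
    rw [EuclideanSpace.real_norm_sq_eq]
    simp
  unfold qq
  rw [Complex.re_sum]
  have h3 : ∑ k : Fin 3, ((y k - p k) ^ 2 / 2 - (r / 16) ^ 2) ≤
      ∑ k : Fin 3, ((z k - (y k : ℂ)) ^ 2).re := Finset.sum_le_sum (fun k _ => h1 k)
  have h4 : ∑ k : Fin 3, ((y k - p k) ^ 2 / 2 - (r / 16) ^ 2) =
      ‖y - p‖ ^ 2 / 2 - 3 * (r / 16) ^ 2 := by
    rw [Finset.sum_sub_distrib, ← Finset.sum_div, ← h2]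
    simp
  rw [h4] at h3
  have h5 : (r / 2) ^ 2 ≤ ‖y - p‖ ^ 2 := pow_le_pow_left₀ (by positivity) hy 2
  nlinarith [sq_nonneg r, mul_pos hr hr]

theorem qq_real (x y : E) : qq (cx x) y = ((‖x - y‖ ^ 2 : ℝ) : ℂ) := by
  unfold qq cx
  rw [EuclideanSpace.real_norm_sq_eq]
  push_cast
  simp

theorem hrx (hN : T_NWT) : T_HRX := by
  intro O f p r hf hr hball
  have hfb : Harm (ball p r) f := ⟨hf.1.mono hball, fun y hy => hf.2 y (hball hy)⟩
  let χ : ContDiffBump p := ⟨r / 2, 3 * r / 4, by positivity, by linarith⟩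
  set φ : E → ℝ := fun x => χ x * f x with hφdef
  have hχ0 : ∀ x, x ∉ closedBall p (3 * r / 4) → χ x = 0 := by
    intro x hx
    by_contra hcon
    have h1 : x ∈ Function.support χ := hcon
    rw [χ.support_eq] at h1
    exact hx (ball_subset_closedBall h1)
  have hφ0 : ∀ x, x ∉ closedBall p (3 * r / 4) → φ =ᶠ[𝓝 x] 0 := by
    intro x hx
    filter_upwards [isClosed_closedBall.isOpen_compl.mem_nhds hx] with y hy
    rw [hφdef]
    simp only
    rw [hχ0 y hy, zero_mul]
    rfl
  have hφ1 : ∀ x ∈ ball p (r / 2), φ =ᶠ[𝓝 x] f := by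
    intro x hx
    filter_upwards [isOpen_ball.mem_nhds hx] with y hy
    rw [hφdef]
    simp only
    rw [χ.one_of_mem_closedBall (ball_subset_closedBall hy), one_mul]
  have hφs : ContDiff ℝ ∞ φ := by
    rw [contDiff_iff_contDiffAt]
    intro x
    by_cases hx : x ∈ closedBall p (3 * r / 4)
    · have hx' : x ∈ ball p r := closedBall_subset_ball (by linarith) hx
      exact χ.contDiff.contDiffAt.mul (hfb.1.contDiffAt (isOpen_ball.mem_nhds hx'))
    · exact (contDiffAt_const (c := (0 : ℝ))).congr_of_eventuallyEq (hφ0 x hx)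
  have hφc : HasCompactSupport φ :=
    HasCompactSupport.intro (isCompact_closedBall p (3 * r / 4))
      (fun x hx => (hφ0 x hx).self_of_nhds)
  set g : E → ℝ := fun y => ∑ k : Fin 3, pd k (pd k φ) y with hg
  have hgc : Continuous g :=
    continuous_finsetSum _ (fun k _ => (contDiff_pd k (contDiff_pd k hφs)).continuous)
  set K : Set E := closedBall p (3 * r / 4) \ ball p (r / 2) with hKdef
  have hK : IsCompact K := (isCompact_closedBall p (3 * r / 4)).diff isOpen_ball
  have hg0 : ∀ y, y ∉ K → g y = 0 := by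
    intro y hy
    by_cases h1 : y ∈ closedBall p (3 * r / 4)
    · have h2 : y ∈ ball p (r / 2) := by
        by_contra hcon
        exact hy ⟨h1, hcon⟩
      have h3 : ∀ k : Fin 3, pd k (pd k φ) y = pd k (pd k f) y := fun k =>
        (pd_congr k (pd_congr k (hφ1 y h2))).self_of_nhds
      rw [hg]
      simp only
      simp_rw [h3]
      exact hfb.2 y (ball_subset_ball (by linarith) h2)
    · have h3 : ∀ k : Fin 3, pd k (pd k φ) y = 0 := fun k => by
        rw [(pd_congr k (pd_congr k (hφ0 y h1))).self_of_nhds]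
        have h4 : pd k (0 : E → ℝ) = fun _ => 0 := by
          funext z
          unfold pd
          simp
        rw [h4]
        unfold pd
        simp
      rw [hg]
      simp only
      simp_rw [h3]
      simp
  -- the kernel
  set U : Set C3 := ball (cx p) (r / 16) with hUdef
  set cst : ℂ := ((-(4 * Real.pi)⁻¹ : ℝ) : ℂ) with hcst
  have hslit : ∀ z ∈ U, ∀ y ∈ K, qq z y ∈ Complex.slitPlane := by
    intro z hz y hy
    left
    apply qq_re hr hz
    have := hy.2
    rw [mem_ball, not_lt, dist_eq_norm] at this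
    exact this
  have hqc : Continuous (Function.uncurry qq) := by
    unfold qq Function.uncurry
    refine continuous_finsetSum _ (fun k _ => ?_)
    apply Continuous.pow
    apply Continuous.sub
    · exact (continuous_apply k).comp continuous_fst
    · exact Complex.continuous_ofReal.comp
        ((PiLp.continuous_apply 2 (fun _ : Fin 3 => ℝ) k).comp continuous_snd)
  have hgcC : Continuous (fun q : C3 × E => (g q.2 : ℂ)) :=
    Complex.continuous_ofReal.comp (hgc.comp continuous_snd)
  have hpow : ∀ c : ℂ, ContinuousOn (fun q : C3 × E => qq q.1 q.2 ^ c) (U ×ˢ K) := by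
    intro c
    exact hqc.continuousOn.cpow continuousOn_const (fun q hq => hslit q.1 hq.1 q.2 hq.2)
  have hGH := gh_integral (U := U) isOpen_ball hK
    (fun z y => cst * ((g y : ℂ) * qq z y ^ (-(1 / 2) : ℂ)))
    (fun v z y => cst * ((g y : ℂ) * ((-(1 / 2) : ℂ) * qq z y ^ (-(1 / 2) - 1 : ℂ) *
      ∑ k : Fin 3, 2 * (z k - (y k : ℂ)) * v k)))
    (by
      exact continuousOn_const.mul (hgcC.continuousOn.mul (hpow _)))
    (by
      intro v
      refine continuousOn_const.mul (hgcC.continuousOn.mul
        ((continuousOn_const.mul (hpow _)).mul (Continuous.continuousOn ?_)))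
      refine continuous_finsetSum _ (fun k _ => ?_)
      apply Continuous.mul _ continuous_const
      apply continuous_const.mul
      apply Continuous.sub
      · exact (continuous_apply k).comp continuous_fst
      · exact Complex.continuous_ofReal.comp
          ((PiLp.continuous_apply 2 (fun _ : Fin 3 => ℝ) k).comp continuous_snd))
    (by
      intro z hz v y hy
      have h1 : HasDerivAt (fun t : ℂ => qq (z + t • v) y)
          (∑ k : Fin 3, 2 * (z k - (y k : ℂ)) * v k) 0 := by
        unfold qq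
        apply HasDerivAt.fun_sum
        intro k _
        have h2 : HasDerivAt (fun t : ℂ => (z + t • v) k - (y k : ℂ)) (v k) 0 := by
          have h3 : HasDerivAt (fun t : ℂ => z k + t * v k - (y k : ℂ)) (v k) 0 := by
            have := (((hasDerivAt_id (0 : ℂ)).mul_const (v k)).const_add (z k)).sub_const
              (y k : ℂ)
            simpa using this
          simpa [Pi.add_apply, Pi.smul_apply, smul_eq_mul] using h3
        have h4 := h2.fun_pow 2
        refine h4.congr_deriv ?_
        simp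
      have h5 : qq (z + (0 : ℂ) • v) y ∈ Complex.slitPlane := by
        rw [zero_smul, add_zero]
        exact hslit z hz y hy
      have h6 := h1.cpow_const (c := (-(1 / 2) : ℂ)) h5
      rw [zero_smul, add_zero] at h6
      exact (h6.const_mul (g y : ℂ)).const_mul cst)
  refine ⟨_, hGH, ?_⟩
  intro x hx
  have hxp : x ∈ ball p (r / 2) := by
    rw [mem_ball, dist_pi_lt_iff (by positivity)] at hx
    rw [mem_ball, dist_eq_norm]
    have h1 : ‖x - p‖ ^ 2 = ∑ k : Fin 3, (x k - p k) ^ 2 := by
      rw [EuclideanSpace.real_norm_sq_eq]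
      simp
    have h2 : ∀ k : Fin 3, (x k - p k) ^ 2 ≤ (r / 16) ^ 2 := by
      intro k
      have h3 := hx k
      simp only [cx] at h3
      rw [Complex.dist_eq, ← Complex.ofReal_sub, Complex.norm_real, Real.norm_eq_abs] at h3
      rw [← sq_abs]
      exact pow_le_pow_left₀ (abs_nonneg _) h3.le 2
    have h3 : ‖x - p‖ ^ 2 ≤ 3 * (r / 16) ^ 2 := by
      rw [h1]
      calc ∑ k : Fin 3, (x k - p k) ^ 2 ≤ ∑ _k : Fin 3, (r / 16) ^ 2 :=
            Finset.sum_le_sum (fun k _ => h2 k)
        _ = 3 * (r / 16) ^ 2 := by simp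
    nlinarith [norm_nonneg (x - p), mul_pos hr hr]
  have hN1 := (hN φ hφs hφc x).2
  have hfx : φ x = f x := (hφ1 x hxp).self_of_nhds
  rw [hfx] at hN1
  rw [hN1]
  have h1 : ∫ y, g y / ‖x - y‖ = ∫ y in K, g y / ‖x - y‖ := by
    symm
    apply setIntegral_eq_integral_of_forall_compl_eq_zero
    intro y hy
    rw [hg0 y hy, zero_div]
  have h2 : ∫ y in K, cst * ((g y : ℂ) * qq (cx x) y ^ (-(1 / 2) : ℂ)) =
      ∫ y in K, ((-(4 * Real.pi)⁻¹ * (g y / ‖x - y‖) : ℝ) : ℂ) := by
    apply setIntegral_congr_fun hK.measurableSet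
    intro y hy
    simp only
    have h3 : 0 < ‖x - y‖ := by
      rw [norm_pos_iff, sub_ne_zero]
      rintro rfl
      exact hy.2 hxp
    have h4 : qq (cx x) y ^ (-(1 / 2) : ℂ) = ((‖x - y‖⁻¹ : ℝ) : ℂ) := by
      rw [qq_real]
      have h5 : (-(1 / 2) : ℂ) = ((-(1 / 2) : ℝ) : ℂ) := by push_cast; ring
      rw [h5, ← Complex.ofReal_cpow (by positivity)]
      congr 1
      rw [← Real.rpow_natCast, ← Real.rpow_mul h3.le]
      norm_num
      rw [Real.rpow_neg_one]
    rw [h4, hcst]
    push_cast
    ring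
  rw [h2, integral_complex_ofReal, integral_const_mul, ← h1]

end Pool.Agent.H29.IC
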