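import Pool.Agent.H29.IC.Tools

/-!
# Calculus in `HS1` (helper29, MP_0ee698_an): modules HSM and WNS
-/

open MeasureTheory Set Filter Topology Metric
open scoped ENNReal NNReal ContDiff RealInnerProductSpace

namespace Pool.Agent.H29.IC

open Pool.Agent.H94.IC

theorem finite_restrict {Ω : Set E} (hΩ : Bornology.IsBounded Ω) :
    IsFiniteMeasure (volume.restrict Ω) :=
  ⟨by rw [Measure.restrict_apply_univ]; exact hΩ.measure_lt_top⟩

theorem int_of_L2 {α : Type*} {F : Type*} [NormedAddCommGroup F] [MeasurableSpace α] {μ : Measure α} [IsFiniteMeasure μ] {f : α → F}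
    (h : MemLp f 2 μ) : Integrable f μ := h.integrable (by norm_num)

theorem int_left {Ω : Set E} (hΩ : Bornology.IsBounded Ω) {u : E → ℝ} {F : E → E}
    (hu : MemLp u 2 (volume.restrict Ω)) (hF : MemLp F 2 (volume.restrict Ω)) {X : E → E}
    (hX : ContDiff ℝ 1 X) (hc : HasCompactSupport X) :
    Integrable (fun x => u x * dv X x + ⟪F x, X x⟫) (volume.restrict Ω) := by
  have := finite_restrict hΩ
  apply Integrable.add
  · obtain ⟨C, hC⟩ := (hasCompactSupport_dv hc).exists_bound_of_continuous (continuous_dv hX)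
    have := (int_of_L2 hu).bdd_mul (c := C) (continuous_dv hX).aestronglyMeasurable
      (ae_of_all _ hC)
    refine this.congr (ae_of_all _ (fun x => ?_))
    simp only
    ring
  · obtain ⟨C, hC⟩ := hc.exists_bound_of_continuous hX.continuous
    refine ((int_of_L2 hF).norm.const_mul C).mono'
      ((int_of_L2 hF).aestronglyMeasurable.inner hX.continuous.aestronglyMeasurable)
      (ae_of_all _ (fun x => ?_))
    calc ‖⟪F x, X x⟫‖ ≤ ‖F x‖ * ‖X x‖ := norm_inner_le_norm _ _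
      _ ≤ ‖F x‖ * C := mul_le_mul_of_nonneg_left (hC x) (norm_nonneg _)
      _ = C * ‖F x‖ := mul_comm _ _

theorem int_right {Ω : Set E} {σ : Measure E} {ν : E → E} (hσ : IsSurf Ω σ ν) {τ : E → ℝ}
    (ht : MemLp τ 2 σ) {X : E → E} (hX : ContDiff ℝ 1 X) (hc : HasCompactSupport X) :
    Integrable (fun x => τ x * ⟪X x, ν x⟫) σ := by
  have := hσ.fin
  obtain ⟨C, hC⟩ := hc.exists_bound_of_continuous hX.continuous
  refine ((int_of_L2 ht).norm.const_mul C).mono'
    ((int_of_L2 ht).aestronglyMeasurable.mul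
      (hX.continuous.aestronglyMeasurable.inner hσ.meas)) ?_
  filter_upwards [hσ.unit] with x hx
  have h1 : ‖⟪X x, ν x⟫‖ ≤ C := by
    calc ‖⟪X x, ν x⟫‖ ≤ ‖X x‖ * ‖ν x‖ := norm_inner_le_norm _ _
      _ ≤ C := by rw [hx, mul_one]; exact hC x
  calc ‖τ x * ⟪X x, ν x⟫‖ = ‖τ x‖ * ‖⟪X x, ν x⟫‖ := norm_mul _ _
    _ ≤ ‖τ x‖ * C := mul_le_mul_of_nonneg_left h1 (norm_nonneg _)
    _ = C * ‖τ x‖ := mul_comm _ _

theorem bdd_on {G : Type*} [NormedAddCommGroup G] {Ω : Set E} (hΩ : Bornology.IsBounded Ω)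
    {f : E → G} (hf : Continuous f) : ∃ C, ∀ x ∈ closure Ω, ‖f x‖ ≤ C :=
  hΩ.isCompact_closure.exists_bound_of_continuousOn hf.continuousOn

theorem memLp_cont_restrict {G : Type*} [NormedAddCommGroup G] {Ω : Set E}
    [SecondCountableTopologyEither E G]
    (ho : MeasurableSet Ω) (hΩ : Bornology.IsBounded Ω) {f : E → G} (hf : Continuous f) :
    MemLp f 2 (volume.restrict Ω) := by
  have := finite_restrict hΩ
  obtain ⟨C, hC⟩ := bdd_on hΩ hf
  refine MemLp.of_bound hf.aestronglyMeasurable C ?_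
  filter_upwards [ae_restrict_mem ho] with x hx
  exact hC x (subset_closure hx)

theorem ae_frontier {Ω : Set E} {σ : Measure E} {ν : E → E} (hσ : IsSurf Ω σ ν) :
    ∀ᵐ x ∂σ, x ∈ frontier Ω := by
  rw [ae_iff]
  exact hσ.supp

theorem memLp_cont_bdry {Ω : Set E} {σ : Measure E} {ν : E → E} (hσ : IsSurf Ω σ ν)
    (hΩ : Bornology.IsBounded Ω) {f : E → ℝ} (hf : Continuous f) : MemLp f 2 σ := by
  have := hσ.fin
  obtain ⟨C, hC⟩ := bdd_on hΩ hf
  refine MemLp.of_bound hf.aestronglyMeasurable C ?_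
  filter_upwards [ae_frontier hσ] with x hx
  exact hC x (frontier_subset_closure hx)

theorem hs_add {Ω S : Set E} {σ : Measure E} {ν : E → E} (hΩ : Bornology.IsBounded Ω)
    (hσ : IsSurf Ω σ ν) {u F τ u' F' τ'} (h : HS1 Ω S σ ν u F τ) (h' : HS1 Ω S σ ν u' F' τ') :
    HS1 Ω S σ ν (fun x => u x + u' x) (fun x => F x + F' x) (fun x => τ x + τ' x) := by
  refine ⟨h.u2.add h'.u2, h.F2.add h'.F2, h.t2.add h'.t2, ?_⟩
  intro X hX hc hd
  have hX1 : ContDiff ℝ 1 X := hX.of_le (by norm_cast)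
  have e1 : ∀ x, (u x + u' x) * dv X x + ⟪F x + F' x, X x⟫ =
      (u x * dv X x + ⟪F x, X x⟫) + (u' x * dv X x + ⟪F' x, X x⟫) := by
    intro x
    rw [inner_add_left]
    ring
  have e2 : ∀ x, (τ x + τ' x) * ⟪X x, ν x⟫ = τ x * ⟪X x, ν x⟫ + τ' x * ⟪X x, ν x⟫ := by
    intro x; ring
  simp_rw [e1, e2]
  rw [integral_add (int_left hΩ h.u2 h.F2 hX1 hc) (int_left hΩ h'.u2 h'.F2 hX1 hc),
    integral_add (int_right hσ h.t2 hX1 hc) (int_right hσ h'.t2 hX1 hc), h.tr X hX hc hd,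
    h'.tr X hX hc hd]

theorem hs_smul {Ω S : Set E} {σ : Measure E} {ν : E → E} {u F τ} (c : ℝ)
    (h : HS1 Ω S σ ν u F τ) :
    HS1 Ω S σ ν (fun x => c * u x) (fun x => c • F x) (fun x => c * τ x) := by
  refine ⟨h.u2.const_mul c, h.F2.const_smul c, h.t2.const_mul c, ?_⟩
  intro X hX hc hd
  have e1 : ∀ x, (c * u x) * dv X x + ⟪c • F x, X x⟫ = c * (u x * dv X x + ⟪F x, X x⟫) := by
    intro x
    rw [real_inner_smul_left]
    ring
  have e2 : ∀ x, (c * τ x) * ⟪X x, ν x⟫ = c * (τ x * ⟪X x, ν x⟫) := by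
    intro x; ring
  simp_rw [e1, e2]
  rw [integral_const_mul, integral_const_mul, h.tr X hX hc hd]

theorem hs_mul {Ω S : Set E} {σ : Measure E} {ν : E → E} (ho : IsOpen Ω)
    (hΩ : Bornology.IsBounded Ω) (hσ : IsSurf Ω σ ν) {u F τ} {χ : E → ℝ}
    (h : HS1 Ω S σ ν u F τ) (hχ : ContDiff ℝ ∞ χ) :
    HS1 Ω S σ ν (fun x => χ x * u x) (fun x => χ x • F x + u x • gr χ x)
      (fun x => χ x * τ x) := by
  obtain ⟨C, hC⟩ := bdd_on hΩ hχ.continuous
  obtain ⟨C', hC'⟩ := bdd_on hΩ (contDiff_gr hχ).continuous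
  have hmem : ∀ᵐ x ∂(volume.restrict Ω), x ∈ Ω := ae_restrict_mem ho.measurableSet
  refine ⟨?_, ?_, ?_, ?_⟩
  · refine MemLp.of_le_mul (c := C) h.u2
      (hχ.continuous.aestronglyMeasurable.mul h.u2.aestronglyMeasurable) ?_
    filter_upwards [hmem] with x hx
    rw [norm_mul]
    exact mul_le_mul_of_nonneg_right (hC x (subset_closure hx)) (norm_nonneg _)
  · apply MemLp.add
    · refine MemLp.of_le_mul (c := C) h.F2
        (hχ.continuous.aestronglyMeasurable.smul h.F2.aestronglyMeasurable) ?_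
      filter_upwards [hmem] with x hx
      rw [norm_smul]
      exact mul_le_mul_of_nonneg_right (hC x (subset_closure hx)) (norm_nonneg _)
    · refine MemLp.of_le_mul (c := C') h.u2
        (h.u2.aestronglyMeasurable.smul (contDiff_gr hχ).continuous.aestronglyMeasurable) ?_
      filter_upwards [hmem] with x hx
      rw [norm_smul, mul_comm]
      exact mul_le_mul_of_nonneg_right (hC' x (subset_closure hx)) (norm_nonneg _)
  · refine MemLp.of_le_mul (c := C) h.t2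
      (hχ.continuous.aestronglyMeasurable.mul h.t2.aestronglyMeasurable) ?_
    filter_upwards [ae_frontier hσ] with x hx
    rw [norm_mul]
    exact mul_le_mul_of_nonneg_right (hC x (frontier_subset_closure hx)) (norm_nonneg _)
  · intro X hX hc hd
    have hs : tsupport (fun x => χ x • X x) ⊆ tsupport X := tsupport_smul_subset_right χ X
    have key := h.tr (fun x => χ x • X x) (hχ.smul hX) (hc.smul_left (f := χ)) (hd.mono_left hs)
    have e1 : ∀ x, (χ x * u x) * dv X x + ⟪χ x • F x + u x • gr χ x, X x⟫ =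
        u x * dv (fun x => χ x • X x) x + ⟪F x, χ x • X x⟫ := by
      intro x
      rw [dv_smul (hχ.differentiable (by simp) x) (hX.differentiable (by simp) x),
        inner_add_left, real_inner_smul_left, real_inner_smul_left, real_inner_smul_right]
      ring
    have e2 : ∀ x, (χ x * τ x) * ⟪X x, ν x⟫ = τ x * ⟪χ x • X x, ν x⟫ := by
      intro x
      rw [real_inner_smul_left]
      ring
    simp_rw [e1, e2]
    exact key

theorem hs_smooth {Ω : Set E} (S : Set E) {σ : Measure E} {ν : E → E} (ho : IsOpen Ω)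
    (hΩ : Bornology.IsBounded Ω) (hσ : IsSurf Ω σ ν) {φ : E → ℝ} (hφ : ContDiff ℝ ∞ φ) :
    HS1 Ω S σ ν φ (gr φ) φ := by
  refine ⟨memLp_cont_restrict ho.measurableSet hΩ hφ.continuous,
    memLp_cont_restrict ho.measurableSet hΩ (contDiff_gr hφ).continuous,
    memLp_cont_bdry hσ hΩ hφ.continuous, ?_⟩
  intro X hX hc _
  have key := hσ.gg (fun x => φ x • X x) ((hφ.smul hX).of_le (by norm_cast))
    (hc.smul_left (f := φ))
  have e1 : ∀ x, φ x * dv X x + ⟪gr φ x, X x⟫ = dv (fun x => φ x • X x) x := by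
    intro x
    rw [dv_smul (hφ.differentiable (by simp) x) (hX.differentiable (by simp) x)]
  have e2 : ∀ x, φ x * ⟪X x, ν x⟫ = ⟪φ x • X x, ν x⟫ := by
    intro x
    rw [real_inner_smul_left]
  simp_rw [e1, e2]
  exact key

theorem hs_cpt {Ω S : Set E} {σ : Measure E} {ν : E → E} (ho : IsOpen Ω)
    (hS : IsCompact S) {φ : E → ℝ} {K : Set E}
    (hφ : ContDiffOn ℝ ∞ φ (Ω \ S)) (h2 : MemLp φ 2 (volume.restrict Ω))
    (hg2 : MemLp (gr φ) 2 (volume.restrict Ω)) (hK : IsCompact K) (hKΩ : K ⊆ Ω)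
    (hzero : ∀ x ∈ Ω \ K, φ x = 0) :
    HS1 Ω S σ ν φ (gr φ) (fun _ => 0) := by
  refine ⟨h2, hg2, MemLp.zero, ?_⟩
  intro X hX hc hd
  have hO : IsOpen (Ω \ S) := ho.sdiff hS.isClosed
  set Y : E → E := Ω.indicator (fun x => φ x • X x) with hY
  -- local descriptions of Y
  have hYS : ∀ x ∈ S, Y =ᶠ[𝓝 x] 0 := by
    intro x hx
    have h1 : x ∉ tsupport X := fun h => (Set.disjoint_left.mp hd h) hx
    have h2 : X =ᶠ[𝓝 x] 0 := notMem_tsupport_iff_eventuallyEq.mp h1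
    filter_upwards [h2] with y hy
    rw [hY]
    by_cases hyΩ : y ∈ Ω
    · rw [indicator_of_mem hyΩ, hy]; simp
    · rw [indicator_of_notMem hyΩ]; rfl
  have hYout : ∀ x ∉ Ω, Y =ᶠ[𝓝 x] 0 := by
    intro x hx
    have h1 : Kᶜ ∈ 𝓝 x := hK.isClosed.isOpen_compl.mem_nhds (fun h => hx (hKΩ h))
    filter_upwards [h1] with y hy
    rw [hY]
    by_cases hyΩ : y ∈ Ω
    · rw [indicator_of_mem hyΩ, hzero y ⟨hyΩ, hy⟩]; simp
    · rw [indicator_of_notMem hyΩ]; rfl
  have hYin : ∀ x ∈ Ω \ S, Y =ᶠ[𝓝 x] (fun x => φ x • X x) := by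
    intro x hx
    filter_upwards [ho.mem_nhds hx.1] with y hy
    rw [hY, indicator_of_mem hy]
  have hφat : ∀ x ∈ Ω \ S, ContDiffAt ℝ ∞ φ x := fun x hx => hφ.contDiffAt (hO.mem_nhds hx)
  have hYsm : ContDiff ℝ ∞ Y := by
    rw [contDiff_iff_contDiffAt]
    intro x
    by_cases hxS : x ∈ S
    · exact (contDiffAt_const (c := (0 : E))).congr_of_eventuallyEq (hYS x hxS)
    · by_cases hxΩ : x ∈ Ω
      · exact ((hφat x ⟨hxΩ, hxS⟩).smul hX.contDiffAt).congr_of_eventuallyEq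
          (hYin x ⟨hxΩ, hxS⟩)
      · exact (contDiffAt_const (c := (0 : E))).congr_of_eventuallyEq (hYout x hxΩ)
  have hYc : HasCompactSupport Y := by
    refine HasCompactSupport.intro (K := tsupport X) hc (fun x hx => ?_)
    rw [hY]
    by_cases hxΩ : x ∈ Ω
    · rw [indicator_of_mem hxΩ, image_eq_zero_of_notMem_tsupport hx, smul_zero]
    · rw [indicator_of_notMem hxΩ]
  have hint := integral_dv_eq_zero (hYsm.of_le (by norm_cast)) hYc
  have hdv0 : ∀ {x}, Y =ᶠ[𝓝 x] 0 → dv Y x = 0 := by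
    intro x hx
    unfold dv
    rw [hx.fderiv_eq]
    simp
  have hpt : ∀ x ∈ Ω, φ x * dv X x + ⟪gr φ x, X x⟫ = dv Y x := by
    intro x hx
    by_cases hxS : x ∈ S
    · have h1 : x ∉ tsupport X := fun h => (Set.disjoint_left.mp hd h) hxS
      rw [hdv0 (hYS x hxS), dv_eq_zero_of_notMem h1, image_eq_zero_of_notMem_tsupport h1]
      simp
    · have hx' : x ∈ Ω \ S := ⟨hx, hxS⟩
      have : dv Y x = dv (fun x => φ x • X x) x := by
        unfold dv
        rw [(hYin x hx').fderiv_eq]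
      rw [this, dv_smul ((hφat x hx').differentiableAt (by simp))
        (hX.differentiable (by simp) x)]
  have h1 : ∫ x in Ω, (φ x * dv X x + ⟪gr φ x, X x⟫) = ∫ x in Ω, dv Y x :=
    setIntegral_congr_fun ho.measurableSet hpt
  rw [h1, setIntegral_eq_integral_of_forall_compl_eq_zero, hint]
  · simp
  · intro x hx
    exact hdv0 (hYout x hx)

theorem hsm : T_HSM := by
  intro Ω S σ ν ho hΩ hσ hS hSΩ
  exact ⟨fun u F τ u' F' τ' h h' => hs_add hΩ hσ h h', fun u F τ c h => hs_smul c h,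
    fun u F τ χ h hχ => hs_mul ho hΩ hσ h hχ, fun φ hφ => hs_smooth S ho hΩ hσ hφ,
    fun φ K h1 h2 h3 h4 h5 h6 => hs_cpt ho hS h1 h2 h3 h4 h5 h6⟩

theorem wns : T_WNS := by
  intro Ω S σ ν ψ h τ ho hΩ hσ hS hSΩ hh hsol
  refine ⟨hh, hsol.h.u2, hsol.h.F2, ?_⟩
  intro φ K h1 h2 h3 h4 h5 h6
  have := hsol.weak φ (gr φ) (fun _ => 0) (hs_cpt ho hS h1 h2 h3 h4 h5 h6)
  rw [this]
  simp

end Pool.Agent.H29.IC
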