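import Pool.Agent.H29.IC.HRP

/-!
# Radial means of weakly harmonic functions (helper29, MP_0ee698_an)
-/

open MeasureTheory Set Filter Topology Metric
open scoped ENNReal NNReal ContDiff RealInnerProductSpace

namespace Pool.Agent.H29.IC

open Pool.Agent.H94.IC

/-- the profile -/
noncomputable def gg (t : ℝ) : ℝ := Real.smoothTransition ((15 / 16 - t) * (16 / 6))

theorem gg_smooth : ContDiff ℝ ∞ gg := by
  unfold gg
  exact Real.smoothTransition.contDiff.comp ((contDiff_const.sub contDiff_id).mul contDiff_const)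

theorem gg_nonneg (t : ℝ) : 0 ≤ gg t := Real.smoothTransition.nonneg _

theorem gg_le_one (t : ℝ) : gg t ≤ 1 := Real.smoothTransition.le_one _

theorem gg_zero {t : ℝ} (h : 15 / 16 ≤ t) : gg t = 0 :=
  Real.smoothTransition.zero_of_nonpos (by nlinarith)

theorem gg_one {t : ℝ} (h : t ≤ 9 / 16) : gg t = 1 :=
  Real.smoothTransition.one_of_one_le (by nlinarith)

/-- the primitive of the profile -/
noncomputable def gI (t : ℝ) : ℝ := (∫ u in (1 : ℝ)..t, gg u) / 2

theorem gI_deriv (t : ℝ) : HasDerivAt gI (gg t / 2) t := by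
  unfold gI
  have h : HasDerivAt (fun u => ∫ x in (1 : ℝ)..u, gg x) (gg t) t :=
    intervalIntegral.integral_hasDerivAt_right
      (gg_smooth.continuous.intervalIntegrable _ _)
      (gg_smooth.continuous.stronglyMeasurableAtFilter _ _) gg_smooth.continuous.continuousAt
  exact h.div_const 2

theorem gI_smooth : ContDiff ℝ ∞ gI := by
  rw [contDiff_infty_iff_deriv]
  refine ⟨fun t => (gI_deriv t).differentiableAt, ?_⟩
  have : deriv gI = fun t => gg t / 2 := by
    funext t
    exact (gI_deriv t).deriv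
  rw [this]
  exact gg_smooth.div_const 2

theorem gI_zero {t : ℝ} (h : 15 / 16 ≤ t) : gI t = 0 := by
  unfold gI
  have : ∫ u in (1 : ℝ)..t, gg u = 0 := by
    apply intervalIntegral.integral_zero_ae
    refine ae_of_all _ (fun u hu => gg_zero ?_)
    rcases le_total 1 t with h1 | h1
    · rw [uIoc_of_le h1] at hu
      linarith [hu.1]
    · rw [uIoc_of_ge h1] at hu
      linarith [hu.1]
  rw [this]
  simp

/-- the radial bump -/
noncomputable def GG (y : E) : ℝ := gg (‖y‖ ^ 2)

/-- its radial potential -/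
noncomputable def GT (y : E) : ℝ := gI (‖y‖ ^ 2)

/-- the Laplacian of the potential -/
noncomputable def LG (y : E) : ℝ := 3 * gg (‖y‖ ^ 2) + 2 * ‖y‖ ^ 2 * deriv gg (‖y‖ ^ 2)

theorem GG_smooth : ContDiff ℝ ∞ GG := gg_smooth.comp (contDiff_norm_sq ℝ)

theorem GT_smooth : ContDiff ℝ ∞ GT := gI_smooth.comp (contDiff_norm_sq ℝ)

theorem one_le_sq {y : E} (h : 1 ≤ ‖y‖) : (15 / 16 : ℝ) ≤ ‖y‖ ^ 2 := by nlinarith

theorem GG_zero {y : E} (h : 1 ≤ ‖y‖) : GG y = 0 := gg_zero (one_le_sq h)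

theorem GT_zero {y : E} (h : 1 ≤ ‖y‖) : GT y = 0 := gI_zero (one_le_sq h)

theorem GG_nonneg (y : E) : 0 ≤ GG y := gg_nonneg _

theorem GG_le_one (y : E) : GG y ≤ 1 := gg_le_one _

theorem cs_of_zero {f : E → ℝ} (h : ∀ y, 1 ≤ ‖y‖ → f y = 0) : HasCompactSupport f :=
  HasCompactSupport.intro (isCompact_closedBall (0 : E) 1) (fun y hy => h y (by
    rw [mem_closedBall_zero_iff, not_le] at hy
    exact hy.le))

theorem hasFDerivAt_normsq (y : E) : HasFDerivAt (fun y : E => ‖y‖ ^ 2)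
    (2 • (innerSL ℝ y)) y := by
  have := (hasStrictFDerivAt_norm_sq y).hasFDerivAt
  exact this

theorem pd_radial {g : ℝ → ℝ} {g' : ℝ} {y : E} (k : Fin 3) (h : HasDerivAt g g' (‖y‖ ^ 2)) :
    pd k (fun y => g (‖y‖ ^ 2)) y = 2 * g' * y k := by
  have h1 : HasFDerivAt (fun y : E => g (‖y‖ ^ 2)) (g' • (2 • (innerSL ℝ y))) y :=
    h.comp_hasFDerivAt y (hasFDerivAt_normsq y)
  unfold pd
  rw [h1.fderiv]
  simp [EuclideanSpace.inner_single_right]
  ring

theorem pd_GT (k : Fin 3) (y : E) : pd k GT y = GG y * y k := by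
  have := pd_radial k (gI_deriv (‖y‖ ^ 2))
  unfold GT GG
  rw [this]
  ring

theorem pd_coord (k : Fin 3) (y : E) : pd k (fun y : E => y k) y = 1 := by
  unfold pd
  have h1 : HasFDerivAt (fun y : E => y k) (EuclideanSpace.proj k : E →L[ℝ] ℝ) y :=
    (EuclideanSpace.proj k : E →L[ℝ] ℝ).hasFDerivAt
  rw [h1.fderiv]
  simp

theorem pd_mul {φ ψ : E → ℝ} {x : E} (k : Fin 3) (hφ : DifferentiableAt ℝ φ x)
    (hψ : DifferentiableAt ℝ ψ x) :
    pd k (fun y => φ y * ψ y) x = φ x * pd k ψ x + ψ x * pd k φ x := by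
  have h1 : HasFDerivAt (fun y => φ y * ψ y) _ x := hφ.hasFDerivAt.mul hψ.hasFDerivAt
  unfold pd
  rw [h1.fderiv]
  simp

theorem lap_GT (y : E) : ∑ k : Fin 3, pd k (pd k GT) y = LG y := by
  have h1 : ∀ k : Fin 3, pd k (pd k GT) y = GG y + y k * (2 * deriv gg (‖y‖ ^ 2) * y k) := by
    intro k
    have e : pd k GT = fun y => GG y * y k := by funext y; exact pd_GT k y
    have hd : DifferentiableAt ℝ (fun y : E => y k) y :=
      (EuclideanSpace.proj k : E →L[ℝ] ℝ).differentiableAt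
    rw [e, pd_mul k (GG_smooth.differentiable (by simp) y) hd, pd_coord]
    have h2 : pd k GG y = 2 * deriv gg (‖y‖ ^ 2) * y k :=
      pd_radial k ((gg_smooth.differentiable (by simp) _).hasDerivAt)
    rw [h2]
    ring
  simp_rw [h1]
  have h3 : ‖y‖ ^ 2 = ∑ k : Fin 3, y k ^ 2 := by
    rw [EuclideanSpace.real_norm_sq_eq]
  unfold LG GG
  rw [Finset.sum_add_distrib]
  have h4 : ∑ k : Fin 3, y k * (2 * deriv gg (‖y‖ ^ 2) * y k) =
      2 * ‖y‖ ^ 2 * deriv gg (‖y‖ ^ 2) := by
    have : ∀ k : Fin 3, y k * (2 * deriv gg (‖y‖ ^ 2) * y k) =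
      (2 * deriv gg (‖y‖ ^ 2)) * y k ^ 2 := by intro k; ring
    simp_rw [this]
    rw [← Finset.mul_sum, ← h3]
    ring
  rw [h4]
  simp

theorem LG_eq : LG = fun y => ∑ k : Fin 3, pd k (pd k GT) y := by
  funext y
  exact (lap_GT y).symm

theorem LG_cont : Continuous LG := by
  rw [LG_eq]
  exact continuous_finsetSum _ (fun k _ => (contDiff_pd k (contDiff_pd k GT_smooth)).continuous)

theorem LG_zero {y : E} (h : 1 ≤ ‖y‖) : LG y = 0 := by
  have h1 : (15 / 16 : ℝ) < ‖y‖ ^ 2 := by nlinarith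
  have h2 : gg =ᶠ[𝓝 (‖y‖ ^ 2)] 0 := by
    filter_upwards [Ioi_mem_nhds h1] with t ht
    exact gg_zero (le_of_lt ht)
  unfold LG
  rw [gg_zero h1.le, h2.deriv_eq]
  simp

theorem LG_bdd : ∃ C : ℝ, 0 ≤ C ∧ ∀ y, ‖LG y‖ ≤ C := by
  obtain ⟨C, hC⟩ := (cs_of_zero (fun y hy => LG_zero hy)).exists_bound_of_continuous LG_cont
  exact ⟨C, (norm_nonneg _).trans (hC 0), hC⟩

/-- the kernel of scale `s` -/
noncomputable def Ph (s : ℝ) (z : E) : ℝ := s⁻¹ ^ 3 * GG (s⁻¹ • z)

theorem Ph_deriv {s : ℝ} (hs : 0 < s) (z : E) :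
    HasDerivAt (fun s => Ph s z) (-(s⁻¹ ^ 4) * LG (s⁻¹ • z)) s := by
  have hn : ∀ a : ℝ, ‖a • z‖ ^ 2 = a ^ 2 * ‖z‖ ^ 2 := by
    intro a
    rw [norm_smul, mul_pow, Real.norm_eq_abs, sq_abs]
  unfold Ph GG LG
  simp_rw [hn]
  have h1 : HasDerivAt (fun s : ℝ => s⁻¹) (-(s ^ 2)⁻¹) s := hasDerivAt_inv hs.ne'
  have h2 : HasDerivAt (fun s : ℝ => s⁻¹ ^ 2 * ‖z‖ ^ 2) (2 * s⁻¹ ^ 1 * (-(s ^ 2)⁻¹) * ‖z‖ ^ 2) s := by
    have := (h1.pow 2).mul_const (‖z‖ ^ 2)
    simpa using this
  have h3 : HasDerivAt (fun s : ℝ => gg (s⁻¹ ^ 2 * ‖z‖ ^ 2))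
      (deriv gg (s⁻¹ ^ 2 * ‖z‖ ^ 2) * (2 * s⁻¹ ^ 1 * (-(s ^ 2)⁻¹) * ‖z‖ ^ 2)) s :=
    ((gg_smooth.differentiable (by simp) _).hasDerivAt).comp s h2
  have h4 := (h1.pow 3).mul h3
  refine h4.congr_deriv ?_
  simp only [Nat.cast_ofNat, Nat.reduceSub, Pi.pow_apply]
  generalize deriv gg (s⁻¹ ^ 2 * ‖z‖ ^ 2) = A
  generalize gg (s⁻¹ ^ 2 * ‖z‖ ^ 2) = B
  field_simp
  ring

/-- weakly harmonic on `O` -/
def WH (f : E → ℝ) (O : Set E) : Prop := ∀ φ : E → ℝ, ContDiff ℝ ∞ φ → HasCompactSupport φ →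
  tsupport φ ⊆ O → ∫ x, f x * ∑ k : Fin 3, pd k (pd k φ) x = 0

/-- the weighted mean -/
noncomputable def M (f : E → ℝ) (x : E) (s : ℝ) : ℝ := ∫ y, f y * Ph s (x - y)


theorem Ph_smooth (s : ℝ) : ContDiff ℝ ∞ (Ph s) :=
  contDiff_const.mul (GG_smooth.comp (contDiff_const_smul _))

theorem scale_zero {F : E → ℝ} (hF : ∀ y, 1 ≤ ‖y‖ → F y = 0) {s : ℝ} (hs : 0 < s) {z : E}
    (hz : s ≤ ‖z‖) : F (s⁻¹ • z) = 0 := by
  apply hF
  rw [norm_smul, Real.norm_of_nonneg (by positivity), le_inv_mul_iff₀ hs]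
  linarith

theorem cs_scale {F : E → ℝ} (hF : ∀ y, 1 ≤ ‖y‖ → F y = 0) {s : ℝ} (hs : 0 < s) (x : E) :
    HasCompactSupport (fun y => F (s⁻¹ • (x - y))) := by
  refine HasCompactSupport.intro (isCompact_closedBall x s) (fun y hy => ?_)
  apply scale_zero hF hs
  rw [mem_closedBall, not_le, dist_eq_norm] at hy
  rw [norm_sub_rev]
  exact hy.le

theorem ts_scale {F : E → ℝ} (hF : ∀ y, 1 ≤ ‖y‖ → F y = 0) {s : ℝ} (hs : 0 < s) (x : E) :
    tsupport (fun y => F (s⁻¹ • (x - y))) ⊆ closedBall x s := by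
  apply closure_minimal _ isClosed_closedBall
  intro y hy
  by_contra hcon
  apply hy
  apply scale_zero hF hs
  rw [mem_closedBall, not_le, dist_eq_norm] at hcon
  rw [norm_sub_rev]
  exact hcon.le

theorem pd_scale (F : E → ℝ) (hF : Differentiable ℝ F) (k : Fin 3) (a : ℝ) (x : E) :
    pd k (fun y => F (a • (x - y))) = fun y => -a * pd k F (a • (x - y)) := by
  funext y
  have h1 : HasFDerivAt (fun y : E => a • (x - y)) (a • (-(ContinuousLinearMap.id ℝ E))) y :=
    ((hasFDerivAt_id (𝕜 := ℝ) y).const_sub x).const_smul a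
  have h2 : HasFDerivAt (fun y => F (a • (x - y)))
      ((fderiv ℝ F (a • (x - y))).comp (a • (-(ContinuousLinearMap.id ℝ E)))) y :=
    (hF _).hasFDerivAt.comp y h1
  unfold pd
  rw [h2.fderiv]
  simp

theorem pd_const_mul (F : E → ℝ) (hF : Differentiable ℝ F) (k : Fin 3) (c : ℝ) :
    pd k (fun y => c * F y) = fun y => c * pd k F y := by
  funext y
  have h2 : HasFDerivAt (fun y => c * F y) (c • fderiv ℝ F y) y :=
    (hF y).hasFDerivAt.const_mul c
  unfold pd
  rw [h2.fderiv]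
  simp

theorem diff_scale {F : E → ℝ} (hF : Differentiable ℝ F) (a : ℝ) (x : E) :
    Differentiable ℝ (fun y => F (a • (x - y))) := by
  apply hF.comp
  exact ((differentiable_const x).sub differentiable_id).const_smul a

theorem smooth_scale {F : E → ℝ} (hF : ContDiff ℝ ∞ F) (a : ℝ) (x : E) :
    ContDiff ℝ ∞ (fun y => F (a • (x - y))) := by
  apply hF.comp
  exact (contDiff_const.sub contDiff_id).const_smul a

theorem lap_scale (F : E → ℝ) (hF : ContDiff ℝ ∞ F) (a : ℝ) (x y : E) :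
    ∑ k : Fin 3, pd k (pd k (fun y => F (a • (x - y)))) y =
      a ^ 2 * ∑ k : Fin 3, pd k (pd k F) (a • (x - y)) := by
  rw [Finset.mul_sum]
  apply Finset.sum_congr rfl
  intro k _
  have hd : Differentiable ℝ (pd k F) := (contDiff_pd k hF).differentiable (by simp)
  rw [pd_scale F (hF.differentiable (by simp)), pd_const_mul _ (diff_scale hd a x),
    pd_scale _ hd]
  ring

/-- weakly harmonic functions kill the derivative of the kernel -/
theorem wh_kills {f : E → ℝ} {O : Set E} (hf : WH f O) {x : E} {s : ℝ} (hs : 0 < s)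
    (hx : closedBall x s ⊆ O) : ∫ y, f y * LG (s⁻¹ • (x - y)) = 0 := by
  have h1 := hf (fun y => GT (s⁻¹ • (x - y))) (smooth_scale GT_smooth _ _)
    (cs_scale (fun y hy => GT_zero hy) hs x) ((ts_scale (fun y hy => GT_zero hy) hs x).trans hx)
  have h2 : ∀ y, ∑ k : Fin 3, pd k (pd k (fun y => GT (s⁻¹ • (x - y)))) y =
      s⁻¹ ^ 2 * LG (s⁻¹ • (x - y)) := by
    intro y
    rw [lap_scale GT GT_smooth, lap_GT]
  simp_rw [h2] at h1
  have h3 : ∀ y, f y * (s⁻¹ ^ 2 * LG (s⁻¹ • (x - y))) =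
      s⁻¹ ^ 2 * (f y * LG (s⁻¹ • (x - y))) := by intro y; ring
  simp_rw [h3] at h1
  rw [integral_const_mul] at h1
  rcases mul_eq_zero.mp h1 with h | h
  · exact absurd h (by positivity)
  · exact h

theorem M_int {f : E → ℝ} (hf : LocallyIntegrable f) {F : E → ℝ} (hF : Continuous F)
    (hF0 : ∀ y, 1 ≤ ‖y‖ → F y = 0) {s : ℝ} (hs : 0 < s) (x : E) :
    Integrable (fun y => f y * F (s⁻¹ • (x - y))) := by
  have h1 : Continuous (fun y => F (s⁻¹ • (x - y))) :=
    hF.comp (by fun_prop)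
  have := hf.integrable_smul_left_of_hasCompactSupport h1 (cs_scale hF0 hs x)
  refine this.congr (ae_of_all _ (fun y => ?_))
  simp [mul_comm]

theorem M_deriv {f : E → ℝ} (hf : LocallyIntegrable f) (x : E) {s : ℝ} (hs : 0 < s) :
    HasDerivAt (M f x) (∫ y, f y * (-(s⁻¹ ^ 4) * LG (s⁻¹ • (x - y)))) s := by
  obtain ⟨C, hC0, hC⟩ := LG_bdd
  have hnear : Ioo (s / 2) (3 * s / 2) ∈ 𝓝 s := Ioo_mem_nhds (by linarith) (by linarith)
  have hcont : ∀ s : ℝ, Continuous (fun y => Ph s (x - y)) := fun s =>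
    (Ph_smooth s).continuous.comp (continuous_const.sub continuous_id)
  set bound : E → ℝ := (closedBall x (2 * s)).indicator (fun y => ‖f y‖ * (((s / 2)⁻¹) ^ 4 * C))
    with hbound
  have hres := hasDerivAt_integral_of_dominated_loc_of_deriv_le (μ := (volume : Measure E))
    (F := fun s y => f y * Ph s (x - y))
    (F' := fun s y => f y * (-(s⁻¹ ^ 4) * LG (s⁻¹ • (x - y)))) (x₀ := s) (bound := bound) hnear
    (Eventually.of_forall (fun s' => hf.aestronglyMeasurable.mul (hcont s').aestronglyMeasurable))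
    (by
      have := (M_int hf GG_smooth.continuous (fun y hy => GG_zero hy) hs x).const_mul (s⁻¹ ^ 3)
      refine this.congr (ae_of_all _ (fun y => ?_))
      simp only [Ph]
      ring)
    (by
      refine hf.aestronglyMeasurable.mul (Continuous.aestronglyMeasurable ?_)
      exact continuous_const.mul (LG_cont.comp (by fun_prop)))
    (ae_of_all _ (fun y s' hs' => by
      have hs'0 : 0 < s' := by linarith [hs'.1]
      by_cases hy : y ∈ closedBall x (2 * s)
      · rw [hbound, indicator_of_mem hy, norm_mul]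
        apply mul_le_mul_of_nonneg_left _ (norm_nonneg _)
        rw [norm_mul, norm_neg, norm_pow, Real.norm_of_nonneg (by positivity : 0 ≤ s'⁻¹)]
        apply mul_le_mul _ (hC _) (norm_nonneg _) (by positivity)
        apply pow_le_pow_left₀ (by positivity)
        exact inv_anti₀ (by positivity) hs'.1.le
      · rw [hbound, indicator_of_notMem hy, scale_zero (fun y hy => LG_zero hy) hs'0]
        · simp
        · rw [mem_closedBall, not_le, dist_eq_norm, norm_sub_rev] at hy
          linarith [hs'.2]))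
    (by
      rw [hbound, integrable_indicator_iff measurableSet_closedBall]
      exact ((hf.integrableOn_isCompact (isCompact_closedBall x (2 * s))).norm).mul_const _)
    (ae_of_all _ (fun y s' hs' => by
      have hs'0 : 0 < s' := by linarith [hs'.1]
      exact (Ph_deriv hs'0 (x - y)).const_mul (f y)))
  exact hres.2

/-- the weighted mean does not depend on the scale -/
theorem M_const {f : E → ℝ} (hf : LocallyIntegrable f) {O : Set E} (hw : WH f O)
    {x : E} {s S : ℝ} (hs : 0 < s) (hsS : s ≤ S) (hx : closedBall x S ⊆ O) :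
    M f x S = M f x s := by
  have hd : ∀ t ∈ Icc s S, HasDerivAt (M f x) 0 t := by
    intro t ht
    have ht0 : 0 < t := by linarith [ht.1]
    have h1 := M_deriv hf x ht0
    have h2 : ∫ y, f y * (-(t⁻¹ ^ 4) * LG (t⁻¹ • (x - y))) = 0 := by
      have h3 : ∀ y, f y * (-(t⁻¹ ^ 4) * LG (t⁻¹ • (x - y))) =
        -(t⁻¹ ^ 4) * (f y * LG (t⁻¹ • (x - y))) := by intro y; ring
      simp_rw [h3]
      rw [integral_const_mul, wh_kills hw ht0 ((closedBall_subset_closedBall ht.2).trans hx),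
        mul_zero]
    rwa [h2] at h1
  exact constant_of_has_deriv_right_zero (fun t ht => (hd t ht).continuousAt.continuousWithinAt)
    (fun t ht => (hd t ⟨ht.1, ht.2.le⟩).hasDerivWithinAt) S ⟨hsS, le_refl _⟩

/-- the total mass of the kernel -/
noncomputable def c0 : ℝ := ∫ y, GG y

theorem Ph_mass {s : ℝ} (hs : 0 < s) (x : E) : ∫ y, Ph s (x - y) = c0 := by
  rw [integral_sub_left_eq_self (fun z => Ph s z) volume x]
  unfold Ph c0
  rw [integral_const_mul, Measure.integral_comp_smul volume GG s⁻¹]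
  rw [finrank_euclideanSpace_fin]
  have : |(s⁻¹ ^ 3)⁻¹| = s ^ 3 := by
    rw [abs_of_pos (by positivity)]
    field_simp
  rw [this, smul_eq_mul]
  field_simp

/-- at Lebesgue points the means tend to the value -/
theorem M_tendsto {f : E → ℝ} (hf : LocallyIntegrable f) (x : E)
    (h : Tendsto (fun s : ℝ => ⨍ y in closedBall x s, ‖f y - f x‖) (𝓝[>] 0) (𝓝 0)) :
    Tendsto (M f x) (𝓝[>] 0) (𝓝 (c0 * f x)) := by
  set V : ℝ := volume.real (ball (0 : E) 1) with hV
  have hb : ∀ s > (0 : ℝ), ‖M f x s - c0 * f x‖ ≤ V * ⨍ y in closedBall x s, ‖f y - f x‖ := by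
    intro s hs
    have i1 : Integrable (fun y => f y * Ph s (x - y)) := by
      have := (M_int hf GG_smooth.continuous (fun y hy => GG_zero hy) hs x).const_mul (s⁻¹ ^ 3)
      refine this.congr (ae_of_all _ (fun y => ?_))
      simp only [Ph]
      ring
    have i2 : Integrable (fun y => f x * Ph s (x - y)) := by
      have hc : LocallyIntegrable (fun _ : E => f x) := locallyIntegrable_const _
      have := (M_int hc GG_smooth.continuous (fun y hy => GG_zero hy) hs x).const_mul (s⁻¹ ^ 3)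
      refine this.congr (ae_of_all _ (fun y => ?_))
      simp only [Ph]
      ring
    have h1 : M f x s - c0 * f x = ∫ y, (f y - f x) * Ph s (x - y) := by
      have : ∀ y, (f y - f x) * Ph s (x - y) = f y * Ph s (x - y) - f x * Ph s (x - y) := by
        intro y; ring
      simp_rw [this]
      rw [integral_sub i1 i2, integral_const_mul, Ph_mass hs]
      unfold M
      ring
    have hsupp : ∀ y ∉ closedBall x s, (f y - f x) * Ph s (x - y) = 0 := by
      intro y hy
      unfold Ph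
      rw [scale_zero (fun y hy => GG_zero hy) hs, mul_zero, mul_zero]
      rw [mem_closedBall, not_le, dist_eq_norm, norm_sub_rev] at hy
      exact hy.le
    rw [h1, ← setIntegral_eq_integral_of_forall_compl_eq_zero hsupp]
    have hint : IntegrableOn (fun y => ‖f y - f x‖) (closedBall x s) :=
      ((hf.integrableOn_isCompact (isCompact_closedBall x s)).sub
        ((locallyIntegrable_const (f x)).integrableOn_isCompact (isCompact_closedBall x s))).norm
    calc ‖∫ y in closedBall x s, (f y - f x) * Ph s (x - y)‖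
        ≤ ∫ y in closedBall x s, ‖f y - f x‖ * s⁻¹ ^ 3 := by
          apply norm_integral_le_of_norm_le (hint.mul_const _)
          refine ae_of_all _ (fun y => ?_)
          rw [norm_mul]
          apply mul_le_mul_of_nonneg_left _ (norm_nonneg _)
          unfold Ph
          rw [norm_mul, Real.norm_of_nonneg (by positivity), Real.norm_of_nonneg (GG_nonneg _)]
          calc s⁻¹ ^ 3 * GG (s⁻¹ • (x - y)) ≤ s⁻¹ ^ 3 * 1 :=
                mul_le_mul_of_nonneg_left (GG_le_one _) (by positivity)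
            _ = s⁻¹ ^ 3 := mul_one _
      _ = V * ⨍ y in closedBall x s, ‖f y - f x‖ := by
          rw [integral_mul_const, setAverage_eq, Measure.real,
            Measure.addHaar_closedBall volume x hs.le, finrank_euclideanSpace_fin,
            ENNReal.toReal_mul, ENNReal.toReal_ofReal (by positivity), smul_eq_mul]
          have hV0 : (volume (ball (0 : E) 1)).toReal ≠ 0 := by
            have := (measure_ball_pos volume (0 : E) one_pos).ne'
            exact ENNReal.toReal_ne_zero.mpr ⟨this, measure_ball_lt_top.ne⟩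
          rw [hV, Measure.real]
          field_simp
  rw [tendsto_iff_norm_sub_tendsto_zero]
  refine squeeze_zero' (Eventually.of_forall (fun s => norm_nonneg _))
    (eventually_nhdsWithin_of_forall (fun s hs => hb s hs)) ?_
  have := h.const_mul V
  simpa using this

end Pool.Agent.H29.IC
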