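import Pool.Agent.H94.IC.Targets3

/-!
# Tools for weak solutions (helper29, MP_0ee698_an)
-/

open MeasureTheory Set Filter Topology Metric
open scoped ENNReal NNReal ContDiff RealInnerProductSpace

namespace Pool.Agent.H29.IC

open Pool.Agent.H94.IC

theorem inner_E (a b : E) : ⟪a, b⟫ = ∑ k : Fin 3, a k * b k := by
  rw [PiLp.inner_apply]
  apply Finset.sum_congr rfl
  intro k _
  simp [mul_comm]

theorem gr_apply (f : E → ℝ) (x : E) (k : Fin 3) : (gr f x) k = pd k f x := by
  have h1 : ⟪gr f x, ev k⟫ = fderiv ℝ f x (ev k) := by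
    unfold gr gradient
    rw [InnerProductSpace.toDual_symm_apply]
  unfold pd
  rw [← h1, real_inner_comm, EuclideanSpace.inner_single_left]
  simp

theorem inner_gr (f : E → ℝ) (x v : E) : ⟪gr f x, v⟫ = fderiv ℝ f x v := by
  unfold gr gradient
  rw [InnerProductSpace.toDual_symm_apply]

theorem norm_gr (f : E → ℝ) (x : E) : ‖gr f x‖ = ‖fderiv ℝ f x‖ := by
  unfold gr gradient
  exact LinearIsometryEquiv.norm_map _ _

/-- product rule for the divergence -/
theorem dv_smul {φ : E → ℝ} {X : E → E} {x : E} (hφ : DifferentiableAt ℝ φ x)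
    (hX : DifferentiableAt ℝ X x) :
    dv (fun y => φ y • X y) x = φ x * dv X x + ⟪gr φ x, X x⟫ := by
  have h1 : HasFDerivAt (fun y => φ y • X y) _ x := hφ.hasFDerivAt.smul hX.hasFDerivAt
  unfold dv
  rw [h1.fderiv, inner_E, Finset.mul_sum, ← Finset.sum_add_distrib]
  apply Finset.sum_congr rfl
  intro k _
  rw [gr_apply]
  simp [pd]

/-- product rule for the gradient -/
theorem gr_mul {φ ψ : E → ℝ} {x : E} (hφ : DifferentiableAt ℝ φ x)
    (hψ : DifferentiableAt ℝ ψ x) :
    gr (fun y => φ y * ψ y) x = φ x • gr ψ x + ψ x • gr φ x := by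
  ext k
  have h1 : HasFDerivAt (fun y => φ y * ψ y) _ x := hφ.hasFDerivAt.mul hψ.hasFDerivAt
  rw [gr_apply]
  unfold pd
  rw [h1.fderiv]
  simp [gr_apply, pd]

theorem gr_eq (φ : E → ℝ) : gr φ = fun x => ∑ k : Fin 3, pd k φ x • ev k := by
  funext x
  ext j
  rw [gr_apply]
  simp [Fin.sum_univ_three]
  fin_cases j <;> simp

theorem dv_eq {X : E → E} {x : E} (hX : DifferentiableAt ℝ X x) :
    dv X x = ∑ k : Fin 3, pd k (fun y => X y k) x := by
  unfold dv
  apply Finset.sum_congr rfl
  intro k _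
  have h1 : HasFDerivAt (fun y => X y k)
      ((EuclideanSpace.proj k : E →L[ℝ] ℝ).comp (fderiv ℝ X x)) x :=
    (EuclideanSpace.proj k : E →L[ℝ] ℝ).hasFDerivAt.comp x hX.hasFDerivAt
  unfold pd
  rw [h1.fderiv]
  simp

theorem contDiffAt_pd {n : ℕ∞} {φ : E → ℝ} {x : E} (k : Fin 3) (h : ContDiffAt ℝ (n + 1) φ x) :
    ContDiffAt ℝ n (pd k φ) x := by
  have h1 : ContDiffAt ℝ n (fderiv ℝ φ) x := h.fderiv_right (le_refl _)
  exact h1.clm_apply contDiffAt_const

theorem contDiffAt_gr {n : ℕ∞} {φ : E → ℝ} {x : E} (h : ContDiffAt ℝ (n + 1) φ x) :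
    ContDiffAt ℝ n (gr φ) x := by
  rw [gr_eq]
  exact ContDiffAt.sum (fun k _ => (contDiffAt_pd k h).smul contDiffAt_const)

/-- divergence of a gradient -/
theorem dv_gr {φ : E → ℝ} {x : E} (hφ : ContDiffAt ℝ 2 φ x) :
    dv (gr φ) x = ∑ k : Fin 3, pd k (pd k φ) x := by
  have h1 : ContDiffAt ℝ (1 : ℕ∞) (gr φ) x := contDiffAt_gr (by
    norm_cast)
  rw [dv_eq (h1.differentiableAt (by norm_num))]
  apply Finset.sum_congr rfl
  intro k _
  congr 1
  funext y
  exact gr_apply φ y k

theorem contDiff_pd {φ : E → ℝ} (k : Fin 3) (h : ContDiff ℝ ∞ φ) : ContDiff ℝ ∞ (pd k φ) := by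
  rw [contDiff_iff_contDiffAt]
  intro x
  exact contDiffAt_pd (n := ⊤) k (by simpa using h.contDiffAt)

theorem contDiff_gr {φ : E → ℝ} (h : ContDiff ℝ ∞ φ) : ContDiff ℝ ∞ (gr φ) := by
  rw [contDiff_iff_contDiffAt]
  intro x
  exact contDiffAt_gr (n := ⊤) (by simpa using h.contDiffAt)

theorem continuous_dv {X : E → E} (h : ContDiff ℝ 1 X) : Continuous (dv X) := by
  unfold dv
  refine continuous_finsetSum _ (fun k _ => ?_)
  have h1 : Continuous (fun x => fderiv ℝ X x (ev k)) := (h.continuous_fderiv (by norm_num)).clm_apply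
    continuous_const
  exact (PiLp.continuous_apply 2 (fun _ : Fin 3 => ℝ) k).comp h1

theorem dv_eq_zero_of_notMem {X : E → E} {x : E} (h : x ∉ tsupport X) : dv X x = 0 := by
  unfold dv
  have : fderiv ℝ X x = 0 := by
    have h1 : X =ᶠ[𝓝 x] 0 := notMem_tsupport_iff_eventuallyEq.mp h
    rw [h1.fderiv_eq]
    simp
  simp [this]

theorem hasCompactSupport_dv {X : E → E} (h : HasCompactSupport X) : HasCompactSupport (dv X) := by
  refine HasCompactSupport.intro (K := tsupport X) h (fun x hx => dv_eq_zero_of_notMem hx)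

/-- the integral of a divergence vanishes -/
theorem integral_dv_eq_zero {X : E → E} (h : ContDiff ℝ 1 X) (hc : HasCompactSupport X) :
    ∫ x, dv X x = 0 := by
  have hcomp : ∀ k : Fin 3, ∫ x, (fderiv ℝ X x (ev k)) k = 0 := by
    intro k
    set P : E →L[ℝ] ℝ := EuclideanSpace.proj k with hP
    have hcont : Continuous (fun x => P (fderiv ℝ X x (ev k))) :=
      P.continuous.comp ((h.continuous_fderiv (by norm_num)).clm_apply continuous_const)
    have hcs : HasCompactSupport (fun x => P (fderiv ℝ X x (ev k))) := by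
      refine HasCompactSupport.intro (K := tsupport X) hc (fun x hx => ?_)
      have h1 : X =ᶠ[𝓝 x] 0 := notMem_tsupport_iff_eventuallyEq.mp hx
      rw [h1.fderiv_eq]
      simp
    have hint : Integrable (fun x => P (fderiv ℝ X x (ev k))) :=
      hcont.integrable_of_hasCompactSupport hcs
    have hint2 : Integrable (fun x => P (X x)) :=
      (P.continuous.comp h.continuous).integrable_of_hasCompactSupport
        (hc.comp_left (g := P) (by simp))
    have key := integral_bilinear_hasLineDerivAt_right_eq_neg_left_of_integrable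
      (μ := (volume : Measure E)) (B := ContinuousLinearMap.mul ℝ ℝ)
      (f := fun x => P (X x)) (f' := fun x => P (fderiv ℝ X x (ev k)))
      (g := fun _ => (1 : ℝ)) (g' := fun _ => (0 : ℝ)) (v := ev k)
      (by simpa using hint) (by simp) (by simpa using hint2)
      (fun x _ => by
        have h2 : HasFDerivAt X (fderiv ℝ X x) x :=
          (h.differentiable (by norm_num) x).hasFDerivAt
        have h3 : HasFDerivAt (fun x => P (X x)) (P.comp (fderiv ℝ X x)) x :=
          P.hasFDerivAt.comp x h2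
        exact h3.hasLineDerivAt (ev k))
      (fun x _ => by
        have := (hasFDerivAt_const (𝕜 := ℝ) (1 : ℝ) x).hasLineDerivAt (ev k)
        simpa using this)
    simp at key
    exact key
  unfold dv
  rw [integral_finsetSum]
  · exact Finset.sum_eq_zero (fun k _ => hcomp k)
  · intro k _
    have hcont : Continuous (fun x => (fderiv ℝ X x (ev k)) k) :=
      (PiLp.continuous_apply 2 (fun _ : Fin 3 => ℝ) k).comp
        ((h.continuous_fderiv (by norm_num)).clm_apply continuous_const)
    refine hcont.integrable_of_hasCompactSupport ?_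
    refine HasCompactSupport.intro (K := tsupport X) hc (fun x hx => ?_)
    have h1 : X =ᶠ[𝓝 x] 0 := notMem_tsupport_iff_eventuallyEq.mp hx
    rw [h1.fderiv_eq]
    simp

end Pool.Agent.H29.IC
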