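import Pool.Agent.H29.IC.HRP

/-!
# Unique continuation from the boundary (helper29, MP_0ee698_an): module UCX
-/

open MeasureTheory Set Filter Topology Metric
open scoped ENNReal NNReal ContDiff RealInnerProductSpace

namespace Pool.Agent.H29.IC

open Pool.Agent.H94.IC

theorem ucx (hW : T_WYL) (hI : T_IDT) (hX : T_HRX) : T_UCX := by
  intro Ω S S' σ ν ψ h h' τ τ' ho hΩ hσ hS hSΩ hS0 hS' hSΩ' hS0' hh hh' hsol hsol' hττ x hxΩ hxS
    hxS' hne
  set O : Set E := (S ∪ S')ᶜ with hOdef
  have hO : IsOpen O := (hS.isClosed.union hS'.isClosed).isOpen_compl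
  set w : E → ℝ := Ω.indicator (fun y => h y - h' y) with hw
  have hw2 : MemLp w 2 (volume.restrict O) := by
    have h1 : MemLp w 2 volume := by
      rw [hw, memLp_indicator_iff_restrict ho.measurableSet]
      exact hsol.h.u2.sub hsol'.h.u2
    exact h1.restrict O
  obtain ⟨W, hWh, hwW⟩ := hW O w hO hw2 (by
    intro φ hφ hc hs
    have hGr := contDiff_gr hφ
    have hGr1 : ContDiff ℝ 1 (gr φ) := hGr.of_le (by norm_cast)
    have hGc := cs_gr hc
    have hGs : tsupport (gr φ) ⊆ O := tsupport_gr.trans hs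
    have h1 := hsol.h.tr (gr φ) hGr hGc
      (Set.disjoint_left.mpr (fun y hy hyS => (hGs hy) (Or.inl hyS)))
    have h2 := hsol'.h.tr (gr φ) hGr hGc
      (Set.disjoint_left.mpr (fun y hy hyS => (hGs hy) (Or.inr hyS)))
    have h3 : ∫ y, τ y * ⟪gr φ y, ν y⟫ ∂σ = ∫ y, τ' y * ⟪gr φ y, ν y⟫ ∂σ := by
      apply integral_congr_ae
      filter_upwards [hττ] with y hy
      rw [hy]
    have h4 := hsol.weak φ (gr φ) φ (hs_smooth S ho hΩ hσ hφ)
    have h5 := hsol'.weak φ (gr φ) φ (hs_smooth S' ho hΩ hσ hφ)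
    have i1 := int_left hΩ hsol.h.u2 hsol.h.F2 hGr1 hGc
    have i2 := int_left hΩ hsol'.h.u2 hsol'.h.F2 hGr1 hGc
    have i3 : Integrable (fun y => ⟪gr h y, gr φ y⟫) (volume.restrict Ω) := by
      have := int_left (u := fun _ => (0 : ℝ)) hΩ MemLp.zero hsol.h.F2 hGr1 hGc
      simpa using this
    have i4 : Integrable (fun y => ⟪gr h' y, gr φ y⟫) (volume.restrict Ω) := by
      have := int_left (u := fun _ => (0 : ℝ)) hΩ MemLp.zero hsol'.h.F2 hGr1 hGc
      simpa using this
    have e1 : ∀ y, (h y - h' y) * dv (gr φ) y =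
        ((h y * dv (gr φ) y + ⟪gr h y, gr φ y⟫) - (h' y * dv (gr φ) y + ⟪gr h' y, gr φ y⟫)) -
          (⟪gr h y, gr φ y⟫ - ⟪gr h' y, gr φ y⟫) := by
      intro y; ring
    have h6 : ∫ y in Ω, (h y - h' y) * dv (gr φ) y = 0 := by
      have i12 : Integrable (fun y => (h y * dv (gr φ) y + ⟪gr h y, gr φ y⟫) -
          (h' y * dv (gr φ) y + ⟪gr h' y, gr φ y⟫)) (volume.restrict Ω) := i1.sub i2
      have i34 : Integrable (fun y => ⟪gr h y, gr φ y⟫ - ⟪gr h' y, gr φ y⟫)
          (volume.restrict Ω) := i3.sub i4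
      simp_rw [e1]
      rw [integral_sub i12 i34, integral_sub i1 i2, integral_sub i3 i4, h1, h2, h3,
        h4, h5]
      ring
    have e2 : ∀ y, ∑ k : Fin 3, pd k (pd k φ) y = dv (gr φ) y := fun y => by
      rw [dv_gr (hφ.contDiffAt.of_le (by norm_cast))]
    simp_rw [e2]
    rw [setIntegral_eq_integral_of_forall_compl_eq_zero]
    · have e3 : (fun y => w y * dv (gr φ) y) =
          Ω.indicator (fun y => (h y - h' y) * dv (gr φ) y) := by
        funext y
        rw [hw]
        by_cases hy : y ∈ Ω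
        · rw [indicator_of_mem hy, indicator_of_mem hy]
        · rw [indicator_of_notMem hy, indicator_of_notMem hy, zero_mul]
      rw [e3, integral_indicator ho.measurableSet]
      exact h6
    · intro y hy
      rw [dv_eq_zero_of_notMem (fun hc' => hy (hGs hc')), mul_zero])
  have hwW' : ∀ᵐ y, y ∈ O → w y = W y := (ae_restrict_iff' hO.measurableSet).mp hwW
  have hcl : IsOpen (closure Ω)ᶜ := isClosed_closure.isOpen_compl
  have hclO : (closure Ω)ᶜ ⊆ O := by
    intro y hy
    rw [hOdef]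
    rintro (h1 | h1)
    · exact hy (subset_closure (hSΩ h1))
    · exact hy (subset_closure (hSΩ' h1))
  have hWc : ContinuousOn W O := hWh.1.continuousOn
  have hW0 : EqOn W (fun _ => 0) (closure Ω)ᶜ := by
    refine Measure.eqOn_open_of_ae_eq (μ := volume) ?_ hcl (hWc.mono hclO) continuousOn_const
    rw [EventuallyEq, ae_restrict_iff' hcl.measurableSet]
    filter_upwards [hwW'] with y hy hyc
    rw [← hy (hclO hyc), hw, indicator_of_notMem (fun h1 => hyc (subset_closure h1))]
  set C : Set E := connectedComponentIn O x with hC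
  have hxO : x ∈ O := by
    rw [hOdef]
    rintro (h1 | h1)
    · exact hxS h1
    · exact hxS' h1
  have hCO : C ⊆ O := connectedComponentIn_subset O x
  have hCo : IsOpen C := hO.connectedComponentIn
  have hCp : IsPreconnected C := isPreconnected_connectedComponentIn
  have hzero := hI C (C ∩ (closure Ω)ᶜ) W hCo hCp (hWc.mono hCO) (by
    intro p hp
    obtain ⟨r, hr, hball⟩ := Metric.isOpen_iff.mp hCo p hp
    exact ⟨r / 16, by positivity, hX C W p r ⟨hWh.1.mono hCO, fun y hy => hWh.2 y (hCO hy)⟩ hr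
      hball⟩) (hCo.inter hcl) hne inter_subset_left (fun y hy => hW0 hy.2)
  have hWx : W x = 0 := hzero x (mem_connectedComponentIn hxO)
  have hU : IsOpen (Ω ∩ O) := ho.inter hO
  have heq : EqOn (fun y => h y - h' y) W (Ω ∩ O) := by
    refine Measure.eqOn_open_of_ae_eq (μ := volume) ?_ hU ?_ (hWc.mono inter_subset_right)
    · rw [EventuallyEq, ae_restrict_iff' hU.measurableSet]
      filter_upwards [hwW'] with y hy hyU
      rw [← hy hyU.2, hw, indicator_of_mem hyU.1]
    · apply ContinuousOn.sub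
      · exact hh.1.continuousOn.mono (fun y hy => ⟨hy.1, fun h1 => hy.2 (Or.inl h1)⟩)
      · exact hh'.1.continuousOn.mono (fun y hy => ⟨hy.1, fun h1 => hy.2 (Or.inr h1)⟩)
  have := heq ⟨hxΩ, hxO⟩
  simp only at this
  rw [hWx] at this
  linarith

end Pool.Agent.H29.IC
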