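import Pool.Agent.H29.IC.Radial

/-!
# Weyl's lemma by radial means (helper29, MP_0ee698_an): module WYL (no Newton formula needed)
-/

open MeasureTheory Set Filter Topology Metric
open scoped ENNReal NNReal ContDiff RealInnerProductSpace

namespace Pool.Agent.H29.IC

open Pool.Agent.H94.IC

theorem c0_lower : volume.real (ball (0 : E) (3 / 4)) ≤ c0 := by
  unfold c0
  have h1 : ∫ y in ball (0 : E) (3 / 4), (1 : ℝ) ≤ ∫ y, GG y := by
    calc ∫ y in ball (0 : E) (3 / 4), (1 : ℝ) = ∫ y in ball (0 : E) (3 / 4), GG y := by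
          apply setIntegral_congr_fun measurableSet_ball
          intro y hy
          rw [mem_ball_zero_iff] at hy
          simp only
          unfold GG
          rw [gg_one (by nlinarith [norm_nonneg y])]
      _ ≤ ∫ y, GG y := by
          apply setIntegral_le_integral
          · exact GG_smooth.continuous.integrable_of_hasCompactSupport
              (cs_of_zero (fun y hy => GG_zero hy))
          · exact ae_of_all _ GG_nonneg
  simpa using h1

theorem c0_ge : (27 / 16 : ℝ) ≤ c0 := by
  refine le_trans ?_ c0_lower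
  rw [Measure.real, EuclideanSpace.volume_ball_fin_three, ENNReal.toReal_mul, ENNReal.toReal_pow,
    ENNReal.toReal_ofReal (by norm_num), ENNReal.toReal_ofReal (by positivity)]
  nlinarith [Real.pi_gt_three]

theorem c0_pos : 0 < c0 := by linarith [c0_ge]

theorem conv_hasFDeriv {f g : E → ℝ} (hf : LocallyIntegrable f) (hg : ContDiff ℝ ∞ g)
    (hc : HasCompactSupport g) (k : Fin 3) (x : E) :
    pd k (fun x => ∫ y, f y * g (x - y)) x = ∫ y, f y * pd k g (x - y) := by
  have h1 := hc.hasFDerivAt_convolution_right (ContinuousLinearMap.mul ℝ ℝ) hf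
    (hg.of_le (by norm_cast) : ContDiff ℝ 1 g) x
  have e1 : (fun x => ∫ y, f y * g (x - y)) =
      convolution f g (ContinuousLinearMap.mul ℝ ℝ) volume := by
    funext x
    rw [convolution_def]
    simp
  unfold pd
  rw [e1, h1.fderiv, convolution_def, ContinuousLinearMap.integral_apply]
  · simp
  · have := (hc.fderiv (𝕜 := ℝ)).convolutionExists_right
      ((ContinuousLinearMap.mul ℝ ℝ).precompR E) hf (hg.continuous_fderiv (by simp)) x
    exact this

theorem conv_smooth {f g : E → ℝ} (hf : LocallyIntegrable f) (hg : ContDiff ℝ ∞ g)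
    (hc : HasCompactSupport g) : ContDiff ℝ ∞ (fun x => ∫ y, f y * g (x - y)) := by
  have h1 := hc.contDiff_convolution_right (ContinuousLinearMap.mul ℝ ℝ) hf hg
  have e1 : (fun x => ∫ y, f y * g (x - y)) =
      convolution f g (ContinuousLinearMap.mul ℝ ℝ) volume := by
    funext x
    rw [convolution_def]
    simp
  rw [e1]
  exact h1

theorem cs_pd {g : E → ℝ} (hc : HasCompactSupport g) (k : Fin 3) : HasCompactSupport (pd k g) := by
  refine HasCompactSupport.intro (K := tsupport g) hc (fun x hx => ?_)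
  have h1 : g =ᶠ[𝓝 x] 0 := notMem_tsupport_iff_eventuallyEq.mp hx
  unfold pd
  rw [h1.fderiv_eq]
  simp

theorem conv_int {f g : E → ℝ} (hf : LocallyIntegrable f) (hg : Continuous g)
    (hc : HasCompactSupport g) (x : E) : Integrable (fun y => f y * g (x - y)) := by
  have h1 : HasCompactSupport (fun y => g (x - y)) := by
    have := hc.comp_homeomorph (Homeomorph.subLeft x)
    exact this
  have h2 : Continuous (fun y => g (x - y)) := hg.comp (by fun_prop)
  have := hf.integrable_smul_left_of_hasCompactSupport h2 h1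
  refine this.congr (ae_of_all _ (fun y => ?_))
  simp [mul_comm]

theorem conv_lap {f g : E → ℝ} (hf : LocallyIntegrable f) (hg : ContDiff ℝ ∞ g)
    (hc : HasCompactSupport g) (x : E) :
    ∑ k : Fin 3, pd k (pd k (fun x => ∫ y, f y * g (x - y))) x =
      ∫ y, f y * ∑ k : Fin 3, pd k (pd k g) (x - y) := by
  simp_rw [Finset.mul_sum]
  rw [integral_finsetSum]
  · apply Finset.sum_congr rfl
    intro k _
    have e1 : pd k (fun x => ∫ y, f y * g (x - y)) = fun x => ∫ y, f y * pd k g (x - y) := by
      funext x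
      exact conv_hasFDeriv hf hg hc k x
    rw [e1, conv_hasFDeriv hf (contDiff_pd k hg) (cs_pd hc k)]
  · intro k _
    exact conv_int hf (contDiff_pd k (contDiff_pd k hg)).continuous (cs_pd (cs_pd hc k) k) x

theorem cs_Ph {s : ℝ} (hs : 0 < s) : HasCompactSupport (Ph s) := by
  refine HasCompactSupport.intro (isCompact_closedBall (0 : E) s) (fun y hy => ?_)
  unfold Ph
  rw [scale_zero (fun y hy => GG_zero hy) hs, mul_zero]
  rw [mem_closedBall_zero_iff, not_le] at hy
  exact hy.le

theorem M_harm {f : E → ℝ} (hf : LocallyIntegrable f) {O : Set E} (hw : WH f O) {s : ℝ}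
    (hs : 0 < s) {x : E} (hx : closedBall x s ⊆ O) :
    ∑ k : Fin 3, pd k (pd k (fun x => M f x s)) x = 0 := by
  unfold M
  rw [conv_lap hf (Ph_smooth s) (cs_Ph hs)]
  have h1 := hw (fun y => Ph s (x - y)) ((Ph_smooth s).comp (contDiff_const.sub contDiff_id)) (by
    exact (cs_Ph hs).comp_homeomorph (Homeomorph.subLeft x)) (by
    refine Subset.trans ?_ hx
    apply closure_minimal _ isClosed_closedBall
    intro y hy
    by_contra hcon
    apply hy
    simp only
    unfold Ph
    rw [scale_zero (fun y hy => GG_zero hy) hs, mul_zero]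
    rw [mem_closedBall, not_le, dist_eq_norm, norm_sub_rev] at hcon
    exact hcon.le)
  rw [← h1]
  congr 1
  funext y
  congr 1
  have := lap_scale (Ph s) (Ph_smooth s) 1 x y
  simpa using this.symm

theorem pd_congr {f g : E → ℝ} {x : E} (k : Fin 3) (h : f =ᶠ[𝓝 x] g) :
    pd k f =ᶠ[𝓝 x] pd k g := by
  filter_upwards [h.fderiv (𝕜 := ℝ)] with y hy
  unfold pd
  rw [hy]

theorem M_limit {f : E → ℝ} (hf : LocallyIntegrable f) {O : Set E} (hw : WH f O) {x : E} {S : ℝ}
    (hS : 0 < S) (hx : closedBall x S ⊆ O)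
    (h : Tendsto (fun s : ℝ => ⨍ y in closedBall x s, ‖f y - f x‖) (𝓝[>] 0) (𝓝 0)) :
    M f x S = c0 * f x := by
  have h1 := M_tendsto hf x h
  have h2 : Tendsto (M f x) (𝓝[>] 0) (𝓝 (M f x S)) := by
    apply tendsto_const_nhds.congr'
    filter_upwards [Ioo_mem_nhdsGT hS] with s hs
    exact M_const hf hw hs.1 hs.2.le hx
  exact tendsto_nhds_unique h2 h1

/-- Weyl's lemma for locally integrable functions -/
theorem weyl_gen {f : E → ℝ} (hf : LocallyIntegrable f) {O : Set E} (hO : IsOpen O)
    (hw : WH f O) : ∃ h : E → ℝ, Harm O h ∧ ∀ᵐ x, x ∈ O → f x = h x := by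
  classical
  have hex : ∀ x, x ∈ O → ∃ s > 0, closedBall x s ⊆ O := fun x hx =>
    Metric.nhds_basis_closedBall.mem_iff.mp (hO.mem_nhds hx)
  let sc : E → ℝ := fun x => if hx : x ∈ O then (hex x hx).choose else 1
  have hsc : ∀ x ∈ O, 0 < sc x ∧ closedBall x (sc x) ⊆ O := by
    intro x hx
    simp only [sc, dif_pos hx]
    exact (hex x hx).choose_spec
  have hind : ∀ x, ∀ S > 0, closedBall x S ⊆ O → M f x (sc x) = M f x S := by
    intro x S hS hxS
    have hx : x ∈ O := hxS (mem_closedBall_self hS.le)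
    obtain ⟨h1, h2⟩ := hsc x hx
    rw [M_const hf hw (lt_min h1 hS) (min_le_left _ _) h2,
      M_const hf hw (lt_min h1 hS) (min_le_right _ _) hxS]
  set h : E → ℝ := fun x => c0⁻¹ * M f x (sc x) with hh
  have hloc : ∀ x ∈ O, ∃ S > 0, closedBall x S ⊆ O ∧ h =ᶠ[𝓝 x] fun y => c0⁻¹ * M f y S := by
    intro x hx
    obtain ⟨h1, h2⟩ := hsc x hx
    refine ⟨sc x / 2, by positivity, (closedBall_subset_closedBall (by linarith)).trans h2, ?_⟩
    filter_upwards [ball_mem_nhds x (by positivity : 0 < sc x / 2)] with y hy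
    rw [hh]
    simp only
    rw [hind y (sc x / 2) (by positivity)]
    refine Subset.trans (closedBall_subset_closedBall' ?_) h2
    rw [mem_ball] at hy
    linarith
  refine ⟨h, ⟨?_, ?_⟩, ?_⟩
  · intro x hx
    obtain ⟨S, hS, _, hE⟩ := hloc x hx
    have : ContDiffAt ℝ ∞ (fun y => c0⁻¹ * M f y S) x :=
      (contDiff_const.mul (conv_smooth hf (Ph_smooth S) (cs_Ph hS))).contDiffAt
    exact (this.congr_of_eventuallyEq hE).contDiffWithinAt
  · intro x hx
    obtain ⟨S, hS, hSO, hE⟩ := hloc x hx
    have e1 : ∀ k : Fin 3, pd k (pd k h) x = c0⁻¹ * pd k (pd k (fun y => M f y S)) x := by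
      intro k
      have h1 := (pd_congr k (pd_congr k hE)).self_of_nhds
      rw [h1]
      have hsm : ContDiff ℝ ∞ (fun y => M f y S) := conv_smooth hf (Ph_smooth S) (cs_Ph hS)
      rw [pd_const_mul _ (hsm.differentiable (by simp)),
        pd_const_mul _ ((contDiff_pd k hsm).differentiable (by simp))]
    simp_rw [e1]
    rw [← Finset.mul_sum, M_harm hf hw hS hSO, mul_zero]
  · filter_upwards [IsUnifLocDoublingMeasure.ae_tendsto_average_norm_sub (μ := volume) hf 1]
      with x hx hxO
    have h1 := hx (fun _ => x) (fun s : ℝ => s) (l := 𝓝[>] 0) tendsto_id (by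
      filter_upwards [self_mem_nhdsWithin] with s hs
      have : (0 : ℝ) < s := hs
      exact mem_closedBall_self (by linarith))
    obtain ⟨h2, h3⟩ := hsc x hxO
    have h4 := M_limit hf hw h2 h3 h1
    rw [hh]
    simp only
    rw [h4]
    have := c0_pos.ne'
    field_simp

theorem wyl : T_WYL := by
  intro O w hO hw hweak
  set f : E → ℝ := O.indicator w with hfdef
  have hf2 : MemLp f 2 volume := by
    rw [hfdef, memLp_indicator_iff_restrict hO.measurableSet]
    exact hw
  have hf : LocallyIntegrable f := hf2.locallyIntegrable (by norm_num)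
  have hWH : WH f O := by
    intro φ hφ hc hs
    rw [← hweak φ hφ hc hs, ← integral_indicator hO.measurableSet]
    congr 1
    funext x
    rw [hfdef]
    by_cases hx : x ∈ O
    · rw [indicator_of_mem hx, indicator_of_mem hx]
    · rw [indicator_of_notMem hx, indicator_of_notMem hx, zero_mul]
  obtain ⟨h, hh, hae⟩ := weyl_gen hf hO hWH
  refine ⟨h, hh, ?_⟩
  rw [EventuallyEq, ae_restrict_iff' hO.measurableSet]
  filter_upwards [hae] with x hx hxO
  rw [← hx hxO, hfdef, indicator_of_mem hxO]

end Pool.Agent.H29.IC
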